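import Pool.Agent.R460.GP.Main
import Pool.Agent.R460.GR.D9
import Pool.Agent.Y697.GJ.LiftC


/-!
Project GP, the assembly: prime pairs `p, p + h` in windows, for almost all even `h` in the residue classes of
the moduli up to `N ^ (7/10 - ρ)`.
-/

set_option autoImplicit false

namespace Pool.Agent.R460.GP

open Finset
open Pool.Agent.Y883.GJ
open Pool.Agent.R460.GS

theorem errPStm_all : ErrPStm :=
  err_allP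
    (core2P Pool.Agent.Y697.GJ.liftC Pool.Agent.Y708.GJ.lift Pool.Agent.Y697.GJ.parsC Pool.Agent.Y872.GJ.pars
      Pool.Agent.Y297.GJ.orth Pool.Agent.Y812.GJ.nonU)
    (shm Pool.Agent.Y297.GJ.orth Pool.Agent.Y662.GJ.jac)
    (Pool.Agent.R461.GS.shl Pool.Agent.Y235.GJ.vau Pool.Agent.Y662.GJ.jac Pool.Agent.Y812.GJ.l2)
    (mG Pool.Agent.Y812.GJ.l2 (bilMaj2 Pool.Agent.Y812.GJ.l2 (Pool.Agent.Y662.GJ.count Pool.Agent.Y812.GJ.l2))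
      (tiMaj2 Pool.Agent.Y812.GJ.l2))
    (nG Pool.Agent.Y812.GJ.l2 Pool.Agent.Y909.GJ.bilMin Pool.Agent.Y412.GJ.tiMin)
    (Pool.Agent.R462.GS.mH (tiMaj2 Pool.Agent.Y812.GJ.l2) Pool.Agent.Y812.GJ.lsh_le Pool.Agent.R453.GS.wtb_all)
    (Pool.Agent.R462.GS.nH Pool.Agent.Y412.GJ.tiMin Pool.Agent.Y812.GJ.lsh_le Pool.Agent.R453.GS.wtb_all)
    Pool.Agent.R453.GS.wtb_all Pool.Agent.R453.GS.apg_all Pool.Agent.Y883.GJ.model_all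

theorem gp_all (ρ : ℝ) (hρ : 0 < ρ) (A T : ℕ) :
    ∃ N₀ : ℕ, ∀ N : ℕ, N₀ ≤ N → ∀ q : ℕ, 1 ≤ q → (q : ℝ) ≤ (N : ℝ) ^ (7 / 10 - ρ) → ∀ a : ℕ,
      (Nat.gcd a q : ℝ) ≤ Real.log N ^ T →
        ((badP A N q a).card : ℝ) ≤ (N : ℝ) / (q * Real.log N ^ A) :=
  gp_main errPStm_all Pool.Agent.R453.GS.wtb_all Pool.Agent.R453.GS.wtd_all ρ hρ A T

theorem gpr_all (ρ : ℝ) (hρ : 0 < ρ) (A : ℕ) :
    ∃ c : ℕ, ∀ A₀ : ℕ, ∃ N₀ : ℕ, ∀ N : ℕ, N₀ ≤ N → ∃ D : Finset ℕ, (D.card : ℝ) ≤ Real.log N ^ c ∧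
      (∀ d ∈ D, Real.log N ^ A₀ < (d : ℝ)) ∧
      ∀ q : ℕ, 1 ≤ q → (q : ℝ) ≤ (N : ℝ) ^ (7 / 10 - ρ) → (∀ d ∈ D, ¬ d ∣ q) → ∀ a : ℕ,
        ((badP A N q a).card : ℝ) ≤ (N : ℝ) / (q * Real.log N ^ A) :=
  gpr_main
    (errPR Pool.Agent.Y812.GJ.l2 (tiMaj2 Pool.Agent.Y812.GJ.l2)
      (core3P Pool.Agent.Y697.GJ.liftC Pool.Agent.Y708.GJ.lift Pool.Agent.Y697.GJ.parsC Pool.Agent.Y872.GJ.pars
        Pool.Agent.Y297.GJ.orth Pool.Agent.Y812.GJ.nonU)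
      (mG Pool.Agent.Y812.GJ.l2
        (bilMaj2 Pool.Agent.Y812.GJ.l2 (Pool.Agent.Y662.GJ.count Pool.Agent.Y812.GJ.l2))
        (tiMaj2 Pool.Agent.Y812.GJ.l2))
      (nG Pool.Agent.Y812.GJ.l2 Pool.Agent.Y909.GJ.bilMin Pool.Agent.Y412.GJ.tiMin)
      (Pool.Agent.R462.GS.mH (tiMaj2 Pool.Agent.Y812.GJ.l2) Pool.Agent.Y812.GJ.lsh_le
        Pool.Agent.R453.GS.wtb_all)
      (Pool.Agent.R462.GS.nH Pool.Agent.Y412.GJ.tiMin Pool.Agent.Y812.GJ.lsh_le Pool.Agent.R453.GS.wtb_all)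
      Pool.Agent.R453.GS.wtb_all Pool.Agent.R453.GS.apg_all Pool.Agent.Y883.GJ.model_all)
    Pool.Agent.R453.GS.wtb_all Pool.Agent.R453.GS.wtd_all ρ hρ A

end Pool.Agent.R460.GP
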