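import Pool.Agent.R460.GP.Asm
import Pool.Agent.R460.GS.Conv

/-!
Project GP: the theorem on prime pairs for real `x`, real windows and residue classes given by integers.
-/

set_option autoImplicit false

namespace Pool.Agent.R460.GP

open Finset
open Pool.Agent.R460.GS
open Pool.Agent.H560R3.GB (sing)

/-- The number of the primes `p` with `u < p ≤ v` such that `p + h` is a prime. -/
noncomputable def pairs (h : ℕ) (u v : ℝ) : ℕ :=
  Set.ncard {p : ℕ | p.Prime ∧ (p + h).Prime ∧ u < (p : ℝ) ∧ (p : ℝ) ≤ v}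

/-- Every window `(u, v] ⊆ (0, x]` of length at least `x / (log x) ^ A` contains at least one twentieth of the
number of primes `p` with `p + h` prime which Hardy and Littlewood predict. -/
def AllWindows (A : ℕ) (x : ℝ) (h : ℕ) : Prop :=
  ∀ u v : ℝ, 0 ≤ u → v ≤ x → x / Real.log x ^ A ≤ v - u →
    1 / 20 * (sing h * (v - u) / Real.log x ^ 2) ≤ (pairs h u v : ℝ)

/-- The even integers `h ≡ a (mod q)` with `0 < h ≤ x` for which `AllWindows A x h` fails. -/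
def exceptional (A : ℕ) (x : ℝ) (q : ℕ) (a : ℤ) : Set ℕ :=
  {h : ℕ | 0 < h ∧ (h : ℝ) ≤ x ∧ 2 ∣ h ∧ (h : ℤ) ≡ a [ZMOD q] ∧ ¬ AllWindows A x h}

lemma pairs_eq (h : ℕ) (u v : ℝ) (hu : 0 ≤ u) (hv : 0 ≤ v) : pairs h u v = cntP h ⌊u⌋₊ ⌊v⌋₊ := by
  unfold pairs cntP
  rw [← Set.ncard_coe_finset]
  congr 1
  ext p
  rw [coe_filter, Set.mem_setOf_eq, Set.mem_setOf_eq, mem_Ioc, Nat.floor_lt hu, Nat.le_floor_iff hv]
  tauto

/-- from the integer windows to the real ones -/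
lemma allWindows_of (A A' : ℕ) (hA : A + 1 ≤ A') : ∃ x₀ : ℝ, ∀ x : ℝ, x₀ ≤ x → ∀ h : ℕ, (h : ℝ) ≤ x →
    PairL A' (2 * ⌊x⌋₊) h → AllWindows A x h := by
  obtain ⟨x₁, hx₁⟩ := Filter.eventually_atTop.1
    ((Real.tendsto_log_atTop.eventually_ge_atTop (100 : ℝ)).and
      (real_log (A + 2) (s := 1) (by norm_num) 100))
  refine ⟨max x₁ 100, fun x hx h hh hP u v hu hv hlen => ?_⟩
  obtain ⟨hl, -, hpw⟩ := hx₁ x ((le_max_left _ _).trans hx)
  have hx100 : 100 ≤ x := (le_max_right _ _).trans hx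
  have hx0 : 0 < x := by linarith
  obtain ⟨N, hN⟩ : ∃ N, N = 2 * ⌊x⌋₊ := ⟨_, rfl⟩
  have hNr : (N : ℝ) = 2 * (⌊x⌋₊ : ℝ) := by rw [hN]; push_cast; ring
  have hf1 : (⌊x⌋₊ : ℝ) ≤ x := Nat.floor_le hx0.le
  have hf2 : x < (⌊x⌋₊ : ℝ) + 1 := Nat.lt_floor_add_one x
  have hxN : x ≤ N := by linarith
  have hN2 : (N : ℝ) ≤ 2 * x := by linarith
  rw [← hN] at hP
  obtain ⟨l, hld⟩ : ∃ l, l = Real.log x := ⟨_, rfl⟩
  obtain ⟨L, hLd⟩ : ∃ L, L = Real.log (N : ℝ) := ⟨_, rfl⟩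
  rw [← hld] at hl hpw hlen ⊢
  have hlL : l ≤ L := by rw [hld, hLd]; exact Real.log_le_log hx0 hxN
  have hLl : L ≤ l + 1 := by
    have h1 : L ≤ Real.log (2 * x) := by rw [hLd]; exact Real.log_le_log (by linarith) hN2
    rw [Real.log_mul (by norm_num) hx0.ne', ← hld] at h1
    have := Real.log_two_lt_d9
    linarith
  have hl0 : 0 < l := by linarith
  have hl1 : 1 ≤ l := by linarith
  have hL0 : 0 < L := by linarith
  -- the length
  obtain ⟨Δ, hΔ⟩ : ∃ Δ, Δ = v - u := ⟨_, rfl⟩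
  rw [← hΔ] at hlen ⊢
  have hΔ100 : 100 ≤ Δ := by
    refine le_trans ?_ hlen
    rw [le_div_iff₀ (by positivity)]
    rw [Real.rpow_one] at hpw
    refine le_trans ?_ hpw
    rw [pow_add]
    have : 100 ≤ l ^ 2 := by nlinarith
    calc 100 * l ^ A ≤ l ^ 2 * l ^ A := mul_le_mul_of_nonneg_right this (by positivity)
      _ = l ^ A * l ^ 2 := by ring
  have hv0 : 0 ≤ v := by linarith
  obtain ⟨y₁, hy1⟩ : ∃ y₁, y₁ = ⌊u⌋₊ := ⟨_, rfl⟩
  obtain ⟨y₂, hy2⟩ : ∃ y₂, y₂ = ⌊v⌋₊ := ⟨_, rfl⟩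
  have e1 : (y₁ : ℝ) ≤ u := by rw [hy1]; exact Nat.floor_le hu
  have e2 : v < y₂ + 1 := by rw [hy2]; exact Nat.lt_floor_add_one v
  have e3 : Δ - 1 ≤ (y₂ : ℝ) - y₁ := by rw [hΔ]; linarith
  have e4 : y₁ < y₂ := by
    have : (y₁ : ℝ) < y₂ := by linarith
    exact_mod_cast this
  have e5 : y₂ + h ≤ N := by
    have a1 : y₂ ≤ ⌊x⌋₊ := by rw [hy2]; exact Nat.floor_le_floor hv
    have a2 : h ≤ ⌊x⌋₊ := Nat.le_floor hh
    omega
  have e6 : (N : ℝ) / L ^ A' ≤ (y₂ : ℝ) - y₁ := by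
    refine le_trans ?_ e3
    have a1 : (N : ℝ) / L ^ A' ≤ 2 * x / l ^ (A + 1) := by
      have b1 : l ^ (A + 1) ≤ L ^ A' :=
        (pow_le_pow_left₀ hl0.le hlL _).trans (pow_le_pow_right₀ (by linarith) hA)
      exact div_le_div₀ (by positivity) hN2 (by positivity) b1
    have a2 : 2 * x / l ^ (A + 1) = (x / l ^ A) * (2 / l) := by
      rw [pow_succ]
      field_simp
    have a3 : 2 / l ≤ 1 / 2 := by rw [div_le_div_iff₀ hl0 (by norm_num)]; linarith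
    have a4 : (x / l ^ A) * (2 / l) ≤ Δ * (1 / 2) := mul_le_mul hlen a3 (by positivity) (by linarith)
    rw [a2] at a1
    linarith
  have h1 := hP y₁ y₂ e4 e5 (by rw [← hLd]; exact e6)
  rw [pairs_eq h u v hu hv0, ← hy1, ← hy2]
  rw [← hLd] at h1
  refine le_trans ?_ h1
  have hS : 1 ≤ sing h := one_le_sing h
  rw [mul_div_assoc, mul_div_assoc]
  have k1 : 1 / 20 * (Δ / l ^ 2) ≤ 55 / 1000 * (((y₂ : ℝ) - y₁) / L ^ 2) := by
    have b1 : 99 / 100 * Δ ≤ (y₂ : ℝ) - y₁ := by linarith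
    have b2 : L ^ 2 ≤ 1021 / 1000 * l ^ 2 := by
      have : L ≤ 101 / 100 * l := by linarith
      calc L ^ 2 ≤ (101 / 100 * l) ^ 2 := pow_le_pow_left₀ hL0.le this 2
        _ = 10201 / 10000 * l ^ 2 := by ring
        _ ≤ 1021 / 1000 * l ^ 2 := by
            have : 0 ≤ l ^ 2 := by positivity
            linarith
    have b3 : 99 / 100 * Δ / (1021 / 1000 * l ^ 2) ≤ ((y₂ : ℝ) - y₁) / L ^ 2 :=
      div_le_div₀ (by linarith) b1 (by positivity) b2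
    have b4 : 99 / 100 * Δ / (1021 / 1000 * l ^ 2) = 990 / 1021 * (Δ / l ^ 2) := by
      field_simp
      ring
    rw [b4] at b3
    have b5 : 0 ≤ Δ / l ^ 2 := by positivity
    linarith
  calc 1 / 20 * (sing h * (Δ / l ^ 2)) = sing h * (1 / 20 * (Δ / l ^ 2)) := by ring
    _ ≤ sing h * (55 / 1000 * (((y₂ : ℝ) - y₁) / L ^ 2)) := mul_le_mul_of_nonneg_left k1 (by linarith)
    _ = 55 / 1000 * (sing h * (((y₂ : ℝ) - y₁) / L ^ 2)) := by ring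

/-- the theorem of project GP -/
theorem pairs_few (ρ : ℝ) (hρ : 0 < ρ) (A T : ℕ) :
    ∃ c : ℕ, ∀ B : ℕ, ∃ x₀ : ℝ, ∀ x : ℝ, x₀ ≤ x → ∃ D : Finset ℕ, (D.card : ℝ) ≤ Real.log x ^ c ∧
      (∀ d ∈ D, Real.log x ^ B < (d : ℝ)) ∧
      ∀ q : ℕ, 1 ≤ q → (q : ℝ) ≤ x ^ (7 / 10 - ρ) → ∀ a : ℤ,
        ((Int.gcd a q : ℝ) ≤ Real.log x ^ T ∨ ∀ d ∈ D, ¬ d ∣ q) →
          (exceptional A x q a).Finite ∧ ((exceptional A x q a).ncard : ℝ) ≤ x / (q * Real.log x ^ A) := by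
  classical
  obtain ⟨N₁, h1⟩ := gp_all ρ hρ (A + 1) T
  obtain ⟨c, h2⟩ := gpr_all ρ hρ (A + 1)
  refine ⟨c + 1, fun B => ?_⟩
  obtain ⟨N₂, h2⟩ := h2 B
  obtain ⟨x₁, hx₁⟩ := allWindows_of A (A + 1) le_rfl
  obtain ⟨x₂, hx₂⟩ := Filter.eventually_atTop.1
    (Real.tendsto_log_atTop.eventually_ge_atTop (2 ^ c + 4 : ℝ))
  refine ⟨max (max x₁ x₂) (N₁ + N₂ + 4), fun x hx => ?_⟩
  have hw := hx₁ x ((le_max_left _ _).trans ((le_max_left _ _).trans hx))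
  have hl := hx₂ x ((le_max_right _ _).trans ((le_max_left _ _).trans hx))
  have hxN : (N₁ : ℝ) + N₂ + 4 ≤ x := (le_max_right _ _).trans hx
  have hN1r : (0 : ℝ) ≤ N₁ := Nat.cast_nonneg _
  have hN2r : (0 : ℝ) ≤ N₂ := Nat.cast_nonneg _
  have hx4 : 4 ≤ x := by linarith
  have hx0 : 0 < x := by linarith
  obtain ⟨N, hN⟩ : ∃ N, N = 2 * ⌊x⌋₊ := ⟨_, rfl⟩
  have hNr : (N : ℝ) = 2 * (⌊x⌋₊ : ℝ) := by rw [hN]; push_cast; ring
  have hf1 : (⌊x⌋₊ : ℝ) ≤ x := Nat.floor_le hx0.le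
  have hf2 : x < (⌊x⌋₊ : ℝ) + 1 := Nat.lt_floor_add_one x
  have hxNr : x ≤ N := by linarith
  have hN2 : (N : ℝ) ≤ 2 * x := by linarith
  have hNN : N₁ + N₂ ≤ N := by
    have : ((N₁ + N₂ : ℕ) : ℝ) ≤ N := by push_cast; linarith
    exact_mod_cast this
  rw [← hN] at hw
  obtain ⟨l, hld⟩ : ∃ l, l = Real.log x := ⟨_, rfl⟩
  obtain ⟨L, hLd⟩ : ∃ L, L = Real.log (N : ℝ) := ⟨_, rfl⟩
  have h2c : (0 : ℝ) < 2 ^ c := by positivity
  have hlL : l ≤ L := by rw [hld, hLd]; exact Real.log_le_log hx0 hxNr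
  rw [← hld] at hl
  have hl4 : 4 ≤ l := by linarith
  have hLl : L ≤ 2 * l := by
    have h1 : L ≤ Real.log (2 * x) := by rw [hLd]; exact Real.log_le_log (by linarith) hN2
    rw [Real.log_mul (by norm_num) hx0.ne', ← hld] at h1
    have := Real.log_two_lt_d9
    linarith
  have hl0 : 0 < l := by linarith
  have hL0 : 0 < L := by linarith
  obtain ⟨D, hDc, hDl, h2⟩ := h2 N (by omega)
  rw [← hLd] at hDc hDl h2
  refine ⟨D, ?_, ?_, ?_⟩
  · rw [← hld]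
    calc (D.card : ℝ) ≤ L ^ c := hDc
      _ ≤ (2 * l) ^ c := pow_le_pow_left₀ hL0.le hLl _
      _ = 2 ^ c * l ^ c := mul_pow _ _ _
      _ ≤ l * l ^ c := mul_le_mul_of_nonneg_right (by linarith) (by positivity)
      _ = l ^ (c + 1) := by ring
  · intro d hd
    refine lt_of_le_of_lt ?_ (hDl d hd)
    rw [← hld]
    exact pow_le_pow_left₀ hl0.le hlL _
  intro q hq hqx a hor
  have hq0 : (0 : ℝ) < q := by exact_mod_cast hq
  have hqN : (q : ℝ) ≤ (N : ℝ) ^ (7 / 10 - ρ) := by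
    rcases le_or_gt 0 (7 / 10 - ρ) with hc | hc
    · exact hqx.trans (Real.rpow_le_rpow hx0.le hxNr hc)
    · exfalso
      have h3 : x ^ (7 / 10 - ρ) < 1 := Real.rpow_lt_one_of_one_lt_of_neg (by linarith) hc
      have h4 : (1 : ℝ) ≤ q := by exact_mod_cast hq
      linarith
  obtain ⟨a', ha'⟩ : ∃ a', a' = (a % (q : ℤ)).toNat := ⟨_, rfl⟩
  obtain ⟨S, hS⟩ : ∃ S, S = badP (A + 1) N q a' := ⟨_, rfl⟩
  have hcard : (S.card : ℝ) ≤ (N : ℝ) / (q * L ^ (A + 1)) := by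
    rw [hS]
    rcases hor with h | h
    · rw [hLd]
      refine h1 N (by omega) q hq hqN a' ?_
      rw [ha', gcd_toNat q a hq, ← hLd]
      rw [← hld] at h
      exact h.trans (pow_le_pow_left₀ hl0.le hlL _)
    · exact h2 q hq hqN h a'
  have hsub : exceptional A x q a ⊆ ((S : Finset ℕ) : Set ℕ) := by
    rintro h ⟨a1, a2, a3, a4, a5⟩
    have hmod := mod_iff' h q a hq a4
    rw [← ha'] at hmod
    rw [mem_coe, hS]
    unfold badP
    refine mem_filter.2 ⟨mem_Icc.2 ⟨a1, ?_⟩, a3, hmod, fun hc => a5 (hw h a2 hc)⟩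
    have : (h : ℝ) ≤ N := a2.trans hxNr
    exact_mod_cast this
  refine ⟨(Finset.finite_toSet S).subset hsub, ?_⟩
  have h3 : ((exceptional A x q a).ncard : ℝ) ≤ S.card := by
    have h4 := Set.ncard_le_ncard hsub (Finset.finite_toSet _)
    rw [Set.ncard_coe_finset] at h4
    exact_mod_cast h4
  refine h3.trans (hcard.trans ?_)
  rw [← hld, div_le_div_iff₀ (by positivity) (by positivity)]
  have h4 : 2 * l ^ A ≤ L ^ (A + 1) := by
    rw [pow_succ']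
    exact mul_le_mul (by linarith) (pow_le_pow_left₀ hl0.le hlL _) (by positivity) hL0.le
  calc (N : ℝ) * (q * l ^ A) ≤ (2 * x) * (q * l ^ A) := mul_le_mul_of_nonneg_right hN2 (by positivity)
    _ = (x * q) * (2 * l ^ A) := by ring
    _ ≤ (x * q) * L ^ (A + 1) := mul_le_mul_of_nonneg_left h4 (by positivity)
    _ = x * (q * L ^ (A + 1)) := by ring

end Pool.Agent.R460.GP
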