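import Pool.Agent.R460.GS.Core2
import Pool.Agent.Y614.GJ.CoreC

set_option autoImplicit false

/-! The mean square of a correlation in a residue class. Adapted from `R460/GS/Core2`. -/

namespace Pool.Agent.R460.GP

open Finset
open Pool.Agent.Y883.GJ
open Pool.Agent.R460.GS
open Pool.Agent.H807R2.Dav (ee)
open Pool.Agent.Y614.GJ.Core (P P_nonneg S_le P_le q_le_phi card_above gcd_above dirich ev_log)
open Pool.Agent.Y614.GJ.CoreC (S_leC)

/-- the correlation -/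
noncomputable def cvd (F G : ℕ → ℂ) (y₁ y₂ : ℕ) (n : ℤ) : ℂ :=
  ∑ b ∈ Icc 1 y₁, ∑ c ∈ Icc 1 y₂, if (b : ℤ) - c = n then F b * (starRingEnd ℂ) (G c) else 0

/-- CORE2P: the mean square of a correlation in a residue class -/
def Core2PStm : Prop := ∀ (A T : ℕ) (ρ : ℝ), 0 < ρ → ∃ A₁ : ℕ, ∀ C : ℕ, ∃ A₂ : ℕ, ∀ C₃ : ℕ, ∃ B₂ : ℕ,
  ∀ K : ℕ, ∃ U N₀ : ℕ, ∀ N : ℕ, N₀ ≤ N → ∀ F G : ℕ → ℂ, BdAt N F → BdAt N G →
  MinAt N (ρ / 2) A₁ C G → MajAt N (ρ / 2) A₂ C C₃ G → ApAt N K U G → NcAt N U G →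
  ShAt N (ρ / 2) B₂ C (T + C) K F →
  ∀ (q : ℕ) [NeZero q], (q : ℝ) ≤ (N : ℝ) ^ (7 / 10 - ρ) → ∀ a : ZMod q,
  (Nat.gcd a.val q : ℝ) ≤ Real.log N ^ T → ∀ y₁ y₂ : ℕ, y₁ ≤ N → y₂ ≤ N →
    ∑ n ∈ (Icc (-(N : ℤ)) N).filter (fun n : ℤ => (n : ZMod q) = a), ‖cvd F G y₁ y₂ n‖ ^ 2 ≤
        (N : ℝ) ^ 3 / (q * Real.log N ^ A)

lemma convC_tr {y₁ y₂ N : ℕ} (h1 : y₁ ≤ N) (h2 : y₂ ≤ N) (F G : ℕ → ℂ) (n : ℤ) :
    (∑ b ∈ Icc 1 N, ∑ c ∈ Icc 1 N, if (b : ℤ) - c = n then tr y₁ F b * (starRingEnd ℂ) (tr y₂ G c) else 0) =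
      ∑ b ∈ Icc 1 y₁, ∑ c ∈ Icc 1 y₂, if (b : ℤ) - c = n then F b * (starRingEnd ℂ) (G c) else 0 := by
  rw [← sum_subset (Icc_subset_Icc le_rfl h1 : Icc 1 y₁ ⊆ Icc 1 N)]
  · refine sum_congr rfl fun b hb => ?_
    rw [mem_Icc] at hb
    rw [← sum_subset (Icc_subset_Icc le_rfl h2 : Icc 1 y₂ ⊆ Icc 1 N)]
    · refine sum_congr rfl fun c hc => ?_
      rw [mem_Icc] at hc
      unfold tr
      rw [if_pos hb.2, if_pos hc.2]
    · intro c hc hc'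
      rw [mem_Icc] at hc hc'
      have : ¬ c ≤ y₂ := fun h => hc' ⟨hc.1, h⟩
      unfold tr
      rw [if_neg this, map_zero, mul_zero, ite_self]
  · intro b hb hb'
    rw [mem_Icc] at hb hb'
    have : ¬ b ≤ y₁ := fun h => hb' ⟨hb.1, h⟩
    refine sum_eq_zero fun c _ => ?_
    unfold tr
    rw [if_neg this, zero_mul, ite_self]

lemma conj_inv_char {q : ℕ} [NeZero q] (χ : DirichletCharacter ℂ q) (x : ZMod q) :
    (starRingEnd ℂ) (χ⁻¹ x) = χ x := by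
  have h : star χ⁻¹ = χ := by
    rw [MulChar.star_eq_inv, inv_inv]
  calc (starRingEnd ℂ) (χ⁻¹ x) = (star χ⁻¹) x := rfl
    _ = χ x := by rw [h]

lemma cauchyP {q : ℕ} [NeZero q] (F G : ZMod q → ℂ) (a : ZMod q) :
    ‖∑ l, F l * (starRingEnd ℂ) (G (l - a))‖ ^ 2 ≤ (∑ l, ‖F l‖ ^ 2) * ∑ l, ‖G l‖ ^ 2 := by
  have h1 : ‖∑ l : ZMod q, F l * (starRingEnd ℂ) (G (l - a))‖ ≤ ∑ l : ZMod q, ‖F l‖ * ‖G (l - a)‖ :=
    (norm_sum_le _ _).trans (le_of_eq (sum_congr rfl fun l _ => by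
      rw [norm_mul, RCLike.norm_conj]))
  have h2 : ∑ l : ZMod q, ‖G (l - a)‖ ^ 2 = ∑ l : ZMod q, ‖G l‖ ^ 2 :=
    Fintype.sum_equiv (Equiv.subRight a) _ _ fun l => rfl
  calc ‖∑ l : ZMod q, F l * (starRingEnd ℂ) (G (l - a))‖ ^ 2
      ≤ (∑ l : ZMod q, ‖F l‖ * ‖G (l - a)‖) ^ 2 := by gcongr
    _ ≤ (∑ l : ZMod q, ‖F l‖ ^ 2) * ∑ l : ZMod q, ‖G (l - a)‖ ^ 2 := sum_mul_sq_le_sq_mul_sq _ _ _
    _ = _ := by rw [h2]

/-- the major arcs -/
lemma majorP (h3C : LiftCStm) (h3 : LiftStm) (F G : ℕ → ℂ) {q N k : ℕ} [NeZero q] [NeZero (k * q)] {h : ℤ} {β η : ℝ}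
    {a : ZMod q} {X : ℝ} (hβ : β = h / (k * q : ℕ) + η)
    (hX : ∀ a' : ZMod (k * q), ((a'.val : ℕ) : ZMod q) = a →
      ‖∑ l : ZMod (k * q), cl (k * q) N F η l * (starRingEnd ℂ) (cl (k * q) N G η (l - a'))‖ ^ 2 ≤
        X * (∑ l : ZMod (k * q), ‖cl (k * q) N F η l‖ ^ 2 +
          ∑ l : ZMod (k * q), ‖cl (k * q) N G η l‖ ^ 2)) :
    ‖∑ l : ZMod q, cl q N F β l * (starRingEnd ℂ) (cl q N G β (l - a))‖ ^ 2 ≤
      (k : ℝ) ^ 2 * (X * (P (k * q) N F β + P (k * q) N G β)) := by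
  have l1 := h3C q k N F G h β η hβ
  have l2 : ∀ F' : ℕ → ℂ, ∑ l : ZMod (k * q), ‖cl (k * q) N F' η l‖ ^ 2 = P (k * q) N F' β := by
    intro F'
    obtain ⟨-, l2⟩ := h3 q k N F' F' h β η hβ
    exact sum_congr rfl fun l _ => by rw [l2]
  rw [l2, l2] at hX
  set Y := X * (P (k * q) N F β + P (k * q) N G β) with hY
  set S := univ.filter (fun a' : ZMod (k * q) => ((a'.val : ℕ) : ZMod q) = a) with hS
  have hc : (S.card : ℝ) ≤ k := by exact_mod_cast card_above k q a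
  have h0 : ∀ a' ∈ S, ‖∑ l : ZMod (k * q), cl (k * q) N F η l *
      (starRingEnd ℂ) (cl (k * q) N G η (l - a'))‖ ^ 2 ≤ Y := fun a' ha' => hX a' (mem_filter.1 ha').2
  calc ‖∑ l : ZMod q, cl q N F β l * (starRingEnd ℂ) (cl q N G β (l - a))‖ ^ 2
      ≤ (∑ a' ∈ S, ‖∑ l : ZMod (k * q), cl (k * q) N F η l *
          (starRingEnd ℂ) (cl (k * q) N G η (l - a'))‖) ^ 2 := by
        have := l1 a
        gcongr
    _ ≤ S.card * ∑ a' ∈ S, ‖∑ l : ZMod (k * q), cl (k * q) N F η l *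
          (starRingEnd ℂ) (cl (k * q) N G η (l - a'))‖ ^ 2 := sq_sum_le_card_mul_sum_sq
    _ ≤ S.card * ∑ a' ∈ S, Y := by
        gcongr with a' ha'
        exact h0 a' ha'
    _ = (S.card : ℝ) ^ 2 * Y := by rw [sum_const, nsmul_eq_mul]; ring
    _ ≤ (k : ℝ) ^ 2 * Y := by
        rcases S.eq_empty_or_nonempty with hS0 | ⟨a', ha'⟩
        · -- no class: use the class of `a`
          exfalso
          have : ((a.val : ℕ) : ZMod (k * q)) ∈ S := by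
            rw [hS, mem_filter]
            refine ⟨mem_univ _, ?_⟩
            have hq : 0 < q := NeZero.pos q
            have hk : 0 < k := Nat.pos_of_ne_zero (left_ne_zero_of_mul (NeZero.ne (k * q)))
            have h1 : a.val < k * q := lt_of_lt_of_le (ZMod.val_lt a) (Nat.le_mul_of_pos_left q hk)
            rw [ZMod.val_natCast, Nat.mod_eq_of_lt h1, ZMod.natCast_zmod_val]
          rw [hS0] at this
          exact absurd this (notMem_empty _)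
        · have hY0 : 0 ≤ Y := le_trans (by positivity) (h0 a' ha')
          gcongr

/-- the estimate for one frequency -/
lemma pointP (h3C : LiftCStm) (h3 : LiftStm) (h5 : OrthStm) (F G : ℕ → ℂ) {A C T : ℕ} {L : ℝ} {N q : ℕ} [NeZero q]
    {a : ZMod q} (hL : L = Real.log N) (hL8 : 8 ≤ L) (hN : 1 ≤ N)
    (hqN : (q : ℝ) ≤ N) (hqLC : (q : ℝ) * L ^ C ≤ N)
    (hgcd : (Nat.gcd a.val q : ℝ) ≤ L ^ T)
    (hmin : ∀ (k : ℕ) (h : ℤ) (β : ℝ), L ^ C ≤ k → (q : ℝ) * k * L ^ C ≤ N →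
      IsCoprime h (k : ℤ) → |q * β - h / k| ≤ 1 / (k : ℝ) ^ 2 →
      ∑ χ : DirichletCharacter ℂ q, ‖cs q N G β χ‖ ^ 2 ≤ (N : ℝ) ^ 2 / L ^ (A + 11))
    (hnon : ∀ β : ℝ, ∑ l ∈ univ.filter (fun l : ZMod q => ¬ IsUnit l),
      ‖cl q N G β l‖ ^ 2 ≤ (N : ℝ) ^ 2 / (q * L ^ (A + 9)) / 2)
    (hpw : ∀ j : ℕ, ((j + 1 : ℕ) : ℝ) ≤ L ^ C → ∀ a' : ZMod ((j + 1) * q),
      (Nat.gcd a'.val ((j + 1) * q) : ℝ) ≤ L ^ (T + C) → ∀ η : ℝ, |η| ≤ L ^ C / N →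
      ‖∑ l : ZMod ((j + 1) * q), cl ((j + 1) * q) N F η l *
        (starRingEnd ℂ) (cl ((j + 1) * q) N G η (l - a'))‖ ^ 2 ≤
      (N : ℝ) ^ 2 / ((((j + 1) * q : ℕ) : ℝ) * L ^ (A + 2 * C + 9)) *
        (∑ l : ZMod ((j + 1) * q), ‖cl ((j + 1) * q) N F η l‖ ^ 2 +
          ∑ l : ZMod ((j + 1) * q), ‖cl ((j + 1) * q) N G η l‖ ^ 2))
    (β : ℝ) :
    ‖∑ l : ZMod q, cl q N F β l * (starRingEnd ℂ) (cl q N G β (l - a))‖ ^ 2 ≤
      (N : ℝ) ^ 2 / (q * L ^ (A + 9)) * P q N F β +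
      L ^ C * ((N : ℝ) ^ 2 / (q * L ^ (A + 2 * C + 9))) *
        ∑ j ∈ range ⌊L ^ C⌋₊, (P ((j + 1) * q) N F β + P ((j + 1) * q) N G β) := by
  have hL0 : 0 < L := by linarith
  have hq0 : (0 : ℝ) < q := by exact_mod_cast NeZero.pos q
  have hN0 : (0 : ℝ) < N := by exact_mod_cast hN
  have hLC : 0 < L ^ C := by positivity
  have hsum0 : 0 ≤ ∑ j ∈ range ⌊L ^ C⌋₊,
      (P ((j + 1) * q) N F β + P ((j + 1) * q) N G β) :=
    sum_nonneg fun j _ => add_nonneg (P_nonneg _ _ _ _) (P_nonneg _ _ _ _)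
  set n := ⌊(N : ℝ) / (q * L ^ C)⌋₊ with hn
  have hn0 : 0 < n := by
    rw [hn, Nat.floor_pos, le_div_iff₀ (by positivity), one_mul]
    exact hqLC
  have hn1 : (n : ℝ) ≤ (N : ℝ) / (q * L ^ C) := Nat.floor_le (by positivity)
  have hn2 : (N : ℝ) / (q * L ^ C) < n + 1 := Nat.lt_floor_add_one _
  obtain ⟨j, h, hj, hcop, hx⟩ := dirich ((q : ℝ) * β) hn0
  have hjn : ((j + 1 : ℕ) : ℝ) ≤ n := by exact_mod_cast hj
  have hk0 : (0 : ℝ) < ((j + 1 : ℕ) : ℝ) := by positivity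
  have hk1 : (1 : ℝ) ≤ ((j + 1 : ℕ) : ℝ) := by exact_mod_cast Nat.succ_pos j
  have hP0 : 0 ≤ P q N F β := P_nonneg _ _ _ _
  by_cases hkC : L ^ C ≤ ((j + 1 : ℕ) : ℝ)
  · -- minor arcs
    have e1 : (q : ℝ) * ((j + 1 : ℕ) : ℝ) * L ^ C ≤ N := by
      have := (le_div_iff₀ (by positivity)).1 (hjn.trans hn1)
      linarith
    have e2 : |(q : ℝ) * β - h / ((j + 1 : ℕ) : ℝ)| ≤ 1 / ((j + 1 : ℕ) : ℝ) ^ 2 := by
      refine hx.trans ?_
      rw [sq]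
      apply one_div_le_one_div_of_le (by positivity)
      apply mul_le_mul_of_nonneg_right _ hk0.le
      linarith
    have e3 := hmin (j + 1) h β hkC e1 hcop e2
    have e4 := P_le h5 e3 (hnon β)
    have hφ0 : (0 : ℝ) < q.totient := by exact_mod_cast Nat.totient_pos.2 (NeZero.pos q)
    have e5 : ((q.totient : ℝ))⁻¹ ≤ 3 * L / q := by
      have h1 := q_le_phi (NeZero.pos q)
      have h2 : Real.log q ≤ L := by
        rw [hL]
        exact Real.log_le_log hq0 hqN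
      rw [inv_eq_one_div, div_le_div_iff₀ hφ0 hq0, one_mul]
      refine h1.trans ?_
      rw [mul_comm (3 * L)]
      apply mul_le_mul_of_nonneg_left _ hφ0.le
      linarith
    have e6 : ((q.totient : ℝ))⁻¹ * ((N : ℝ) ^ 2 / L ^ (A + 11)) ≤
        (N : ℝ) ^ 2 / (q * L ^ (A + 9)) / 2 := by
      calc ((q.totient : ℝ))⁻¹ * ((N : ℝ) ^ 2 / L ^ (A + 11))
          ≤ 3 * L / q * ((N : ℝ) ^ 2 / L ^ (A + 11)) := by gcongr
        _ = (N : ℝ) ^ 2 / (q * L ^ (A + 9)) * (3 / L) := by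
            rw [show A + 11 = (A + 9) + 2 by ring, pow_add]
            field_simp
        _ ≤ (N : ℝ) ^ 2 / (q * L ^ (A + 9)) * (1 / 2) := by
            have : 3 / L ≤ 1 / 2 := by
              rw [div_le_div_iff₀ hL0 (by norm_num)]
              linarith
            gcongr
        _ = _ := by ring
    have e7 : P q N G β ≤ (N : ℝ) ^ 2 / (q * L ^ (A + 9)) := by
      refine e4.trans ?_
      linarith
    calc ‖∑ l : ZMod q, cl q N F β l * (starRingEnd ℂ) (cl q N G β (l - a))‖ ^ 2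
        ≤ P q N F β * P q N G β := S_leC q N F G β a
      _ ≤ P q N F β * ((N : ℝ) ^ 2 / (q * L ^ (A + 9))) := by gcongr
      _ = (N : ℝ) ^ 2 / (q * L ^ (A + 9)) * P q N F β + 0 := by ring
      _ ≤ _ := by
          gcongr
          positivity
  · -- major arcs
    rw [not_le] at hkC
    set k : ℕ := j + 1 with hk
    have hηle : |β - h / ((k * q : ℕ) : ℝ)| ≤ L ^ C / N := by
      have e1 : β - h / ((k * q : ℕ) : ℝ) = ((q : ℝ) * β - h / (k : ℝ)) / q := by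
        push_cast
        field_simp
      rw [e1, abs_div, abs_of_pos hq0, div_le_div_iff₀ hq0 hN0]
      have e2 : (N : ℝ) ≤ (n + 1) * (q * L ^ C) := by
        have := (div_lt_iff₀ (by positivity)).1 hn2
        linarith
      have hn3 : (0 : ℝ) < n + 1 := by positivity
      calc |(q : ℝ) * β - h / (k : ℝ)| * N ≤ 1 / (((n : ℝ) + 1) * (k : ℝ)) * N := by gcongr
        _ ≤ 1 / ((n : ℝ) + 1) * N := by
            apply mul_le_mul_of_nonneg_right _ hN0.le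
            apply one_div_le_one_div_of_le hn3
            nlinarith
        _ ≤ 1 / ((n : ℝ) + 1) * ((n + 1) * (q * L ^ C)) := by gcongr
        _ = L ^ C * q := by field_simp
    have e3 := majorP h3C h3 F G (a := a)
      (X := (N : ℝ) ^ 2 / (((k * q : ℕ) : ℝ) * L ^ (A + 2 * C + 9)))
      (h := h) (β := β) (η := β - h / ((k * q : ℕ) : ℝ)) (by ring)
      (fun a' ha' => hpw j hkC.le a' (by
        have h1 := gcd_above ha'
        have h2 : ((Nat.gcd a'.val (k * q) : ℕ) : ℝ) ≤ (k : ℝ) * (Nat.gcd a.val q : ℝ) := by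
          exact_mod_cast h1
        calc ((Nat.gcd a'.val (k * q) : ℕ) : ℝ) ≤ (k : ℝ) * (Nat.gcd a.val q : ℝ) := h2
          _ ≤ L ^ C * L ^ T := by gcongr
          _ = L ^ (T + C) := by rw [← pow_add, add_comm]) _ hηle)
    have hPk : 0 ≤ P (k * q) N F β + P (k * q) N G β :=
      add_nonneg (P_nonneg _ _ _ _) (P_nonneg _ _ _ _)
    have e4 : P (k * q) N F β + P (k * q) N G β ≤ ∑ j ∈ range ⌊L ^ C⌋₊,
        (P ((j + 1) * q) N F β + P ((j + 1) * q) N G β) := by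
      refine single_le_sum (f := fun j => P ((j + 1) * q) N F β + P ((j + 1) * q) N G β)
        (fun j _ => add_nonneg (P_nonneg _ _ _ _) (P_nonneg _ _ _ _)) (mem_range.2 ?_)
      have : k ≤ ⌊L ^ C⌋₊ := Nat.le_floor hkC.le
      omega
    have hX0 : 0 ≤ (N : ℝ) ^ 2 / (q * L ^ (A + 2 * C + 9)) := by positivity
    calc ‖∑ l : ZMod q, cl q N F β l * (starRingEnd ℂ) (cl q N G β (l - a))‖ ^ 2
        ≤ (k : ℝ) ^ 2 * ((N : ℝ) ^ 2 / (((k * q : ℕ) : ℝ) * L ^ (A + 2 * C + 9)) *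
          (P (k * q) N F β + P (k * q) N G β)) := e3
      _ = k * ((N : ℝ) ^ 2 / (q * L ^ (A + 2 * C + 9))) *
          (P (k * q) N F β + P (k * q) N G β) := by
          rw [Nat.cast_mul]
          field_simp
      _ ≤ L ^ C * ((N : ℝ) ^ 2 / (q * L ^ (A + 2 * C + 9))) *
          ∑ j ∈ range ⌊L ^ C⌋₊, (P ((j + 1) * q) N F β + P ((j + 1) * q) N G β) := by
          gcongr
      _ = 0 + L ^ C * ((N : ℝ) ^ 2 / (q * L ^ (A + 2 * C + 9))) *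
          ∑ j ∈ range ⌊L ^ C⌋₊, (P ((j + 1) * q) N F β + P ((j + 1) * q) N G β) := by
          ring
      _ ≤ _ := by
          gcongr
          positivity


open Classical in
/-- the pointwise estimate on the major arcs -/
lemma pwP (h3 : OrthStm) {q N : ℕ} [NeZero q] (F G : ℕ → ℂ) {A C₃ K B₂ U : ℕ} {L η : ℝ} {a : ZMod q}
    (hL : L = Real.log N) (hL200 : 200 ≤ L) (hN : 1 ≤ N) (hqN : (q : ℝ) ≤ N)
    (B : Finset (DirichletCharacter ℂ q)) (hBc : (B.card : ℝ) ≤ L ^ C₃)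
    (hgood : ∀ S : Finset (DirichletCharacter ℂ q), Disjoint S B →
      ∑ χ ∈ S, ‖cs q N G η χ‖ ^ 2 ≤ (N : ℝ) ^ 2 / L ^ (A + 4))
    (hnon : ∑ l ∈ univ.filter (fun l : ZMod q => ¬ IsUnit l), ‖cl q N G η l‖ ^ 2 ≤
      (N : ℝ) ^ 2 / (q * L ^ (A + 2)))
    (hsm : ∀ χ : DirichletCharacter ℂ q, (χ.conductor : ℝ) ≤ L ^ K → ‖cs q N G η χ‖ ≤ N / L ^ U)
    (hU : C₃ + A + 4 ≤ 2 * U)
    (hsh : ∀ χ : DirichletCharacter ℂ q, L ^ K < χ.conductor →
      ‖∑ l : ZMod q, cl q N F η l * χ (a - l)‖ ≤ N / L ^ B₂)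
    (hB₂ : 2 * C₃ + A + 3 ≤ 2 * B₂) :
    ‖∑ l : ZMod q, cl q N F η l * (starRingEnd ℂ) (cl q N G η (l - a))‖ ^ 2 ≤ (N : ℝ) ^ 2 / (q * L ^ A) *
      (∑ l : ZMod q, ‖cl q N F η l‖ ^ 2 + ∑ l : ZMod q, ‖cl q N G η l‖ ^ 2) := by
  have hL0 : 0 < L := by linarith
  have hL1 : 1 ≤ L := by linarith
  have hNp : (0 : ℝ) < N := by exact_mod_cast hN
  have hq0 : 0 < q := Nat.pos_of_ne_zero (NeZero.ne q)
  have hqr : (0 : ℝ) < q := by exact_mod_cast hq0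
  have hφ0 : (0 : ℝ) < q.totient := by exact_mod_cast Nat.totient_pos.2 hq0
  have hφ : ((q.totient : ℝ))⁻¹ ≤ 3 * L / q := by
    have h1 := q_le_phi hq0
    have h2 : Real.log q ≤ L := by
      rw [hL]
      exact Real.log_le_log hqr hqN
    rw [inv_eq_one_div, div_le_div_iff₀ hφ0 hqr, one_mul]
    refine h1.trans ?_
    rw [mul_comm (3 * L)]
    apply mul_le_mul_of_nonneg_left _ hφ0.le
    linarith
  obtain ⟨BF, hBF⟩ : ∃ BF : Finset (DirichletCharacter ℂ q),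
      BF = B.filter (fun χ => L ^ K < (χ.conductor : ℝ)) := ⟨_, rfl⟩
  have hBFc : (BF.card : ℝ) ≤ L ^ C₃ := by
    refine le_trans ?_ hBc
    rw [hBF]
    exact_mod_cast card_filter_le _ _
  have hFB : ∑ χ ∈ univ.filter (fun χ => χ ∉ BF), ‖cs q N G η χ‖ ^ 2 ≤
      2 * ((N : ℝ) ^ 2 / L ^ (A + 4)) := by
    have hsub : univ.filter (fun χ => χ ∉ BF) ⊆
        (univ.filter (fun χ => χ ∉ B)) ∪ (B.filter (fun χ => ¬ L ^ K < (χ.conductor : ℝ))) := by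
      intro χ hχ
      rw [mem_filter] at hχ
      rw [mem_union, mem_filter, mem_filter]
      by_cases hb : χ ∈ B
      · right
        refine ⟨hb, fun h => hχ.2 ?_⟩
        rw [hBF, mem_filter]
        exact ⟨hb, h⟩
      · left
        exact ⟨mem_univ _, hb⟩
    have hdis : Disjoint (univ.filter (fun χ => χ ∉ B))
        (B.filter (fun χ => ¬ L ^ K < (χ.conductor : ℝ))) := by
      rw [disjoint_left]
      intro χ k1 k2
      exact (mem_filter.1 k1).2 (mem_filter.1 k2).1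
    refine (sum_le_sum_of_subset_of_nonneg hsub fun _ _ _ => sq_nonneg _).trans ?_
    rw [sum_union hdis]
    have k1 : ∑ χ ∈ univ.filter (fun χ => χ ∉ B), ‖cs q N G η χ‖ ^ 2 ≤ (N : ℝ) ^ 2 / L ^ (A + 4) := by
      apply hgood
      rw [disjoint_left]
      intro χ k1 k2
      exact (mem_filter.1 k1).2 k2
    have k2 : ∑ χ ∈ B.filter (fun χ => ¬ L ^ K < (χ.conductor : ℝ)),
        ‖cs q N G η χ‖ ^ 2 ≤ (N : ℝ) ^ 2 / L ^ (A + 4) := by
      calc ∑ χ ∈ B.filter (fun χ => ¬ L ^ K < (χ.conductor : ℝ)), ‖cs q N G η χ‖ ^ 2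
          ≤ ∑ χ ∈ B.filter (fun χ => ¬ L ^ K < (χ.conductor : ℝ)), ((N : ℝ) / L ^ U) ^ 2 := by
            refine sum_le_sum fun χ hχ => ?_
            exact pow_le_pow_left₀ (norm_nonneg _) (hsm χ (not_lt.1 (mem_filter.1 hχ).2)) 2
        _ = ((B.filter (fun χ => ¬ L ^ K < (χ.conductor : ℝ))).card : ℝ) * ((N : ℝ) / L ^ U) ^ 2 := by
            rw [sum_const, nsmul_eq_mul]
        _ ≤ L ^ C₃ * ((N : ℝ) / L ^ U) ^ 2 := by
            apply mul_le_mul_of_nonneg_right _ (sq_nonneg _)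
            refine le_trans ?_ hBc
            exact_mod_cast card_filter_le _ _
        _ = (N : ℝ) ^ 2 * (L ^ C₃ / L ^ (2 * U)) := by
            rw [div_pow, ← pow_mul, mul_comm U 2]
            ring
        _ ≤ (N : ℝ) ^ 2 * (1 / L ^ (A + 4)) := by
            have e1 : L ^ C₃ / L ^ (2 * U) ≤ 1 / L ^ (A + 4) := by
              rw [div_le_div_iff₀ (by positivity) (by positivity), one_mul, ← pow_add]
              exact pow_le_pow_right₀ hL1 (by omega)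
            gcongr
        _ = _ := by ring
    linarith
  obtain ⟨Fc, hFc⟩ : ∃ Fc : ZMod q → ℂ, Fc = cl q N F η := ⟨_, rfl⟩
  obtain ⟨Gc, hGc⟩ : ∃ Gc : ZMod q → ℂ, Gc = cl q N G η := ⟨_, rfl⟩
  obtain ⟨Gb, hGb⟩ : ∃ Gb : ZMod q → ℂ, Gb = clB q N G η BF := ⟨_, rfl⟩
  obtain ⟨SF, hSF⟩ : ∃ SF : ℝ, SF = ∑ l, ‖Fc l‖ ^ 2 := ⟨_, rfl⟩
  obtain ⟨SG, hSG⟩ : ∃ SG : ℝ, SG = ∑ l, ‖Gc l‖ ^ 2 := ⟨_, rfl⟩
  have hSF0 : 0 ≤ SF := by rw [hSF]; exact sum_nonneg fun _ _ => sq_nonneg _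
  have hSG0 : 0 ≤ SG := by rw [hSG]; exact sum_nonneg fun _ _ => sq_nonneg _
  obtain ⟨E, hE⟩ : ∃ E : ℝ, E = (N : ℝ) ^ 2 / (q * L ^ (A + 1)) := ⟨_, rfl⟩
  have hE0 : 0 ≤ E := by rw [hE]; positivity
  have hGg : ∑ l, ‖Gc l - Gb l‖ ^ 2 ≤ E := by
    rw [hE, hGc, hGb, (h3 q N G η BF).1]
    have k1 : (q.totient : ℝ)⁻¹ * ∑ χ ∈ univ.filter (fun χ => χ ∉ BF), ‖cs q N G η χ‖ ^ 2 ≤
        3 * L / q * (2 * ((N : ℝ) ^ 2 / L ^ (A + 4))) := by
      refine mul_le_mul hφ ?_ (sum_nonneg fun _ _ => sq_nonneg _) (by positivity)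
      exact hFB
    have k2 : 3 * L / q * (2 * ((N : ℝ) ^ 2 / L ^ (A + 4))) = 6 / L ^ 2 * ((N : ℝ) ^ 2 / (q * L ^ (A + 1))) := by
      have e : L ^ (A + 4) = L ^ (A + 1) * L * L ^ 2 := by ring
      rw [e]
      field_simp
      try ring
    have k3 : (N : ℝ) ^ 2 / (q * L ^ (A + 2)) = 1 / L * ((N : ℝ) ^ 2 / (q * L ^ (A + 1))) := by
      have e : L ^ (A + 2) = L ^ (A + 1) * L := by ring
      rw [e]
      field_simp
    have k4 : 6 / L ^ 2 ≤ 1 / 2 := by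
      rw [div_le_div_iff₀ (by positivity) two_pos]
      nlinarith
    have k5 : 1 / L ≤ 1 / 2 := by
      rw [div_le_div_iff₀ hL0 two_pos]
      linarith
    have k6 : 0 ≤ (N : ℝ) ^ 2 / (q * L ^ (A + 1)) := by positivity
    rw [k2] at k1
    rw [k3] at hnon
    have k7 := mul_le_mul_of_nonneg_right k4 k6
    have k8 := mul_le_mul_of_nonneg_right k5 k6
    have k9 : (q.totient : ℝ)⁻¹ * ∑ χ ∈ univ.filter (fun χ => χ ∉ BF), ‖cs q N G η χ‖ ^ 2 +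
        ∑ l ∈ univ.filter (fun l : ZMod q => ¬ IsUnit l), ‖cl q N G η l‖ ^ 2 ≤
        (N : ℝ) ^ 2 / (q * L ^ (A + 1)) := by linarith
    convert k9 using 2
  have hcs : ∀ χ : DirichletCharacter ℂ q, ‖cs q N G η χ‖ ^ 2 ≤ q.totient * SG := by
    intro χ
    have k1 : ‖cs q N G η χ‖ ^ 2 ≤ ∑ χ : DirichletCharacter ℂ q, ‖cs q N G η χ‖ ^ 2 :=
      single_le_sum (f := fun χ : DirichletCharacter ℂ q => ‖cs q N G η χ‖ ^ 2)
        (fun _ _ => sq_nonneg _) (mem_univ χ)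
    refine k1.trans ?_
    rw [(h3 q N G η B).2.2, hSG, hGc]
    apply mul_le_mul_of_nonneg_left _ hφ0.le
    exact sum_le_sum_of_subset_of_nonneg (filter_subset _ _) fun _ _ _ => sq_nonneg _
  have t1 : ‖∑ l, Fc l * (starRingEnd ℂ) (Gc (l - a) - Gb (l - a))‖ ^ 2 ≤ SF * E := by
    refine (cauchyP Fc (fun l => Gc l - Gb l) a).trans ?_
    rw [← hSF]
    exact mul_le_mul_of_nonneg_left hGg hSF0
  have t2 : ‖∑ l, Fc l * (starRingEnd ℂ) (Gb (l - a))‖ ^ 2 ≤ SG * E := by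
    have e1 : ∑ l, Fc l * (starRingEnd ℂ) (Gb (l - a)) = (q.totient : ℂ)⁻¹ *
        ∑ χ ∈ BF, (starRingEnd ℂ) (cs q N G η χ) * (χ (-1) * ∑ l, Fc l * χ (a - l)) := by
      rw [hGb]
      unfold clB
      have e2 : ∀ l : ZMod q, Fc l * (starRingEnd ℂ) ((q.totient : ℂ)⁻¹ * ∑ χ ∈ BF, χ⁻¹ (l - a) * cs q N G η χ) =
          ∑ χ ∈ BF, (q.totient : ℂ)⁻¹ * ((starRingEnd ℂ) (cs q N G η χ) * (χ (-1) * (Fc l * χ (a - l)))) := by
        intro l
        rw [map_mul, map_sum, mul_sum, mul_sum]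
        refine sum_congr rfl fun χ _ => ?_
        rw [map_mul, conj_inv_char, map_inv₀, Complex.conj_natCast]
        have e5 : χ (l - a) = χ (-1) * χ (a - l) := by
          rw [← map_mul]
          congr 1
          ring
        rw [e5]
        ring
      rw [sum_congr rfl fun l _ => e2 l, sum_comm, mul_sum]
      refine sum_congr rfl fun χ _ => ?_
      rw [← mul_sum, ← mul_sum, ← mul_sum]
    have e3 : ‖∑ χ ∈ BF, (starRingEnd ℂ) (cs q N G η χ) * (χ (-1) * ∑ l, Fc l * χ (a - l))‖ ≤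
        (BF.card : ℝ) * (Real.sqrt (q.totient * SG) * (N / L ^ B₂)) := by
      apply sum_norm_le
      intro χ hχ
      rw [norm_mul, RCLike.norm_conj]
      rw [hBF, mem_filter] at hχ
      refine mul_le_mul (Real.le_sqrt_of_sq_le (hcs χ)) ?_ (norm_nonneg _) (Real.sqrt_nonneg _)
      rw [hFc, norm_mul]
      have e6 := hsh χ hχ.2
      have e7 : ‖χ (-1)‖ ≤ 1 := DirichletCharacter.norm_le_one _ _
      have e8 := norm_nonneg (∑ l : ZMod q, cl q N F η l * χ (a - l))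
      calc _ ≤ 1 * ‖∑ l : ZMod q, cl q N F η l * χ (a - l)‖ := mul_le_mul_of_nonneg_right e7 e8
        _ ≤ _ := by rw [one_mul]; exact e6
    rw [e1, norm_mul, norm_inv, Complex.norm_natCast]
    calc ((q.totient : ℝ)⁻¹ * ‖∑ χ ∈ BF, (starRingEnd ℂ) (cs q N G η χ) * (χ (-1) * ∑ l, Fc l * χ (a - l))‖) ^ 2
        ≤ ((q.totient : ℝ)⁻¹ * (L ^ C₃ * (Real.sqrt (q.totient * SG) * (N / L ^ B₂)))) ^ 2 := by
          have : (BF.card : ℝ) * (Real.sqrt (q.totient * SG) * (N / L ^ B₂)) ≤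
              L ^ C₃ * (Real.sqrt (q.totient * SG) * (N / L ^ B₂)) := by
            apply mul_le_mul_of_nonneg_right hBFc
            positivity
          have h4 := e3.trans this
          gcongr
      _ = (q.totient : ℝ)⁻¹ * (L ^ (2 * C₃) * (SG * (N ^ 2 / L ^ (2 * B₂)))) := by
          have h5 : Real.sqrt (q.totient * SG) ^ 2 = q.totient * SG := Real.sq_sqrt (by positivity)
          rw [mul_pow, mul_pow, mul_pow, h5, div_pow, ← pow_mul, ← pow_mul, mul_comm C₃ 2, mul_comm B₂ 2]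
          field_simp
      _ ≤ (3 * L / q) * (L ^ (2 * C₃) * (SG * (N ^ 2 / L ^ (2 * B₂)))) := by
          apply mul_le_mul_of_nonneg_right hφ
          positivity
      _ = SG * (N ^ 2 / q * (3 * L ^ (2 * C₃ + 1) / L ^ (2 * B₂))) := by
          rw [pow_succ]
          field_simp
          try ring
      _ ≤ SG * (N ^ 2 / q * (1 / L ^ (A + 1))) := by
          have e1 : 3 * L ^ (2 * C₃ + 1) / L ^ (2 * B₂) ≤ 1 / L ^ (A + 1) := by
            rw [div_le_div_iff₀ (by positivity) (by positivity), one_mul]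
            calc 3 * L ^ (2 * C₃ + 1) * L ^ (A + 1) ≤ L * L ^ (2 * C₃ + 1) * L ^ (A + 1) := by
                  gcongr; linarith
              _ = L ^ (2 * C₃ + A + 3) := by ring
              _ ≤ L ^ (2 * B₂) := pow_le_pow_right₀ hL1 hB₂
          gcongr
      _ = SG * E := by
          rw [hE]
          field_simp
  have hsum : ∑ l : ZMod q, Fc l * (starRingEnd ℂ) (Gc (l - a)) =
      (∑ l, Fc l * (starRingEnd ℂ) (Gc (l - a) - Gb (l - a))) + ∑ l, Fc l * (starRingEnd ℂ) (Gb (l - a)) := by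
    rw [← sum_add_distrib]
    refine sum_congr rfl fun l _ => ?_
    rw [map_sub]
    ring
  rw [← hFc, ← hGc, ← hSF, ← hSG, hsum]
  have e4 : (N : ℝ) ^ 2 / (q * L ^ A) = L * E := by
    rw [hE, pow_succ L A]
    field_simp
  rw [e4]
  have k1 := norm_add_le (∑ l, Fc l * (starRingEnd ℂ) (Gc (l - a) - Gb (l - a))) (∑ l, Fc l * (starRingEnd ℂ) (Gb (l - a)))
  obtain ⟨X, hX⟩ : ∃ X, X = ‖∑ l, Fc l * (starRingEnd ℂ) (Gc (l - a) - Gb (l - a))‖ := ⟨_, rfl⟩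
  obtain ⟨Y, hY⟩ : ∃ Y, Y = ‖∑ l, Fc l * (starRingEnd ℂ) (Gb (l - a))‖ := ⟨_, rfl⟩
  rw [← hX, ← hY] at k1
  rw [← hX] at t1
  rw [← hY] at t2
  calc ‖(∑ l, Fc l * (starRingEnd ℂ) (Gc (l - a) - Gb (l - a))) + ∑ l, Fc l * (starRingEnd ℂ) (Gb (l - a))‖ ^ 2 ≤ (X + Y) ^ 2 :=
        pow_le_pow_left₀ (norm_nonneg _) k1 2
    _ ≤ 2 * X ^ 2 + 2 * Y ^ 2 := by nlinarith [sq_nonneg (X - Y)]
    _ ≤ 2 * (E * (SF + SG)) := by nlinarith
    _ ≤ L * (E * (SF + SG)) := by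
        apply mul_le_mul_of_nonneg_right (by linarith)
        positivity
    _ = L * E * (SF + SG) := by ring


theorem core2P (h3C : LiftCStm) (h3 : LiftStm) (h4C : ParsCStm) (h4 : ParsStm) (h5 : OrthStm) (h7 : NonUStm) :
    Core2PStm := by
  classical
  intro A T ρ hρ
  refine ⟨A + 11, fun C => ?_⟩
  obtain ⟨A', hA'⟩ : ∃ A', A' = A + 2 * C + 9 := ⟨_, rfl⟩
  refine ⟨A' + 4, fun C₃ => ⟨2 * C₃ + A' + 3, fun K => ?_⟩⟩
  obtain ⟨c, hc⟩ := h7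
  obtain ⟨U₁, hU₁⟩ : ∃ U₁, U₁ = C₃ + A' + 4 := ⟨_, rfl⟩
  obtain ⟨N₃, hN₃⟩ := Filter.eventually_atTop.1 (ev_log C (s := ρ / 2) (by positivity) 200)
  refine ⟨K + C + 1 + U₁ + 2 * (A' + 9) + 4 + 2 * c, max N₃ 1, ?_⟩
  intro N hN F G hF hG hMin hMaj hAp hNc hSh q _ hq a ha y₁ y₂ hy₁ hy₂
  obtain ⟨U, hU⟩ : ∃ U, U = K + C + 1 + U₁ + 2 * (A' + 9) + 4 + 2 * c := ⟨_, rfl⟩
  rw [← hU] at hAp hNc
  have hNN₃ : N₃ ≤ N := le_trans (le_max_left _ _) hN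
  have hN1 : 1 ≤ N := le_trans (le_max_right _ _) hN
  obtain ⟨hL200, hLC⟩ := hN₃ N hNN₃
  have hbF := bd_sq hF (by linarith)
  have hbG := bd_sq hG (by linarith)
  obtain ⟨L, hL⟩ : ∃ L, L = Real.log (N : ℝ) := ⟨_, rfl⟩
  rw [← hL] at hL200 hLC hbF hbG ha ⊢
  have hL8 : 8 ≤ L := by linarith
  have hL0 : 0 < L := by linarith
  have hL1 : 1 ≤ L := by linarith
  have hN0 : (0 : ℝ) < N := by exact_mod_cast hN1
  have hNr1 : (1 : ℝ) ≤ N := by exact_mod_cast hN1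
  have hq0 : (0 : ℝ) < q := by exact_mod_cast NeZero.pos q
  have hLC1 : 1 ≤ L ^ C := one_le_pow₀ hL1
  have hqLC' : (q : ℝ) * L ^ C ≤ (N : ℝ) ^ (7 / 10 - ρ / 2) := by
    calc (q : ℝ) * L ^ C ≤ (N : ℝ) ^ (7 / 10 - ρ) * (N : ℝ) ^ (ρ / 2) := by gcongr
      _ = (N : ℝ) ^ (7 / 10 - ρ / 2) := by
          rw [← Real.rpow_add hN0]
          congr 1
          ring
  have hpowN : (N : ℝ) ^ (7 / 10 - ρ / 2) ≤ N := by
    calc (N : ℝ) ^ (7 / 10 - ρ / 2) ≤ (N : ℝ) ^ (1 : ℝ) :=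
          Real.rpow_le_rpow_of_exponent_le hNr1 (by linarith)
      _ = N := Real.rpow_one _
  have hqLC : (q : ℝ) * L ^ C ≤ N := hqLC'.trans hpowN
  have hqN : (q : ℝ) ≤ N := by
    refine le_trans ?_ hqLC
    nlinarith
  have hq2 : (q : ℝ) ≤ (N : ℝ) ^ (7 / 10 - ρ / 2) := by
    refine le_trans ?_ hqLC'
    nlinarith
  obtain ⟨F', hF'⟩ : ∃ F', F' = tr y₁ F := ⟨_, rfl⟩
  obtain ⟨G', hG'⟩ : ∃ G', G' = tr y₂ G := ⟨_, rfl⟩
  -- the estimate for one frequency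
  have hpt := pointP (a := a) h3C h3 h5 F' G' hL hL8 hN1 hqN hqLC ha
    (fun k h β hk1 hk2 hk3 hk4 => by
      simp only [hG', cs_tr hy₂]
      have := hMin q hq2 k h β (by rw [← hL]; exact hk1) (by rw [← hL]; exact hk2) hk3 hk4 y₂ hy₂
      rw [← hL] at this
      exact this)
    (fun β => by
      simp only [hG', cl_tr hy₂]
      exact nonu hc hL hL8 hN1 hG hNc (X := A + 9) (by omega) hqN y₂ hy₂ β)
    (fun j hj a' ha' η hη => by
      have hq' : (((j + 1) * q : ℕ) : ℝ) ≤ (N : ℝ) ^ (7 / 10 - ρ / 2) := by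
        rw [Nat.cast_mul]
        calc ((j + 1 : ℕ) : ℝ) * q ≤ L ^ C * q := by gcongr
          _ = q * L ^ C := mul_comm _ _
          _ ≤ _ := hqLC'
      have hq'N : (((j + 1) * q : ℕ) : ℝ) ≤ N := hq'.trans hpowN
      obtain ⟨B, -, hBc, hB⟩ := hMaj ((j + 1) * q) hq'
      rw [← hL] at hBc hB
      rw [show A + 2 * C + 9 = A' from hA'.symm]
      apply pwP h5 F' G' (C₃ := C₃) (K := K) (B₂ := 2 * C₃ + A' + 3) (U := U₁) hL hL200 hN1 hq'N B hBc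
      · intro S hS
        simp only [hG', cs_tr hy₂]
        exact hB η hη y₂ hy₂ S hS
      · simp only [hG', cl_tr hy₂]
        refine (nonu hc hL hL8 hN1 hG hNc (X := A' + 2) (by omega) hq'N y₂ hy₂ η).trans ?_
        have : 0 ≤ (N : ℝ) ^ 2 / ((((j + 1) * q : ℕ) : ℝ) * L ^ (A' + 2)) := by positivity
        linarith
      · intro χ hχ
        rw [hG', cs_tr hy₂]
        have hs := small_cs hAp hNc (by exact_mod_cast hq'N) χ (by rw [← hL]; exact hχ) (by rw [← hL]; linarith) hN1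
          y₂ hy₂ η (C := C) (by rw [← hL]; exact hη)
        rw [← hL] at hs
        refine hs.trans ?_
        calc L ^ (K + C + 1) * (N / L ^ U) = N * (L ^ (K + C + 1) / L ^ U) := by ring
          _ ≤ N * (1 / L ^ U₁) := by
              have : L ^ (K + C + 1) / L ^ U ≤ 1 / L ^ U₁ := by
                rw [div_le_div_iff₀ (by positivity) (by positivity), one_mul, ← pow_add]
                exact pow_le_pow_right₀ hL1 (by omega)
              gcongr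
          _ = _ := by ring
      · omega
      · intro χ hχ
        simp only [hF', cl_tr hy₁]
        have := hSh ((j + 1) * q) hq' χ (by rw [← hL]; exact hχ) a' (by rw [← hL]; exact ha') η
          (by rw [← hL]; exact hη) y₁ hy₁
        rw [← hL] at this
        exact this
      · omega)
  -- Parseval
  set D : ℝ := ((2 * N + 1 : ℕ) : ℝ) with hD
  have hD0 : 0 < D := by rw [hD]; positivity
  have hsumP : ∀ (q' : ℕ) [NeZero q'] (F : ℕ → ℂ),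
      ∑ t ∈ range (2 * N + 1), P q' N F ((t : ℝ) / D) = D * ∑ n ∈ Icc 1 N, ‖F n‖ ^ 2 :=
    fun q' _ F => (h4 q' N F F hN1).2
  set WL := ∑ n ∈ Icc 1 N, ‖F' n‖ ^ 2 with hWL
  set WF := ∑ n ∈ Icc 1 N, ‖G' n‖ ^ 2 with hWF
  have hWL0 : 0 ≤ WL := sum_nonneg fun _ _ => by positivity
  have hWF0 : 0 ≤ WF := sum_nonneg fun _ _ => by positivity
  have w1 : WL ≤ N * L ^ 8 := by
    refine le_trans (sum_le_sum fun n _ => ?_) hbF
    rw [hF']
    exact pow_le_pow_left₀ (norm_nonneg _) (norm_tr_le _ _ _) 2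
  have w2 : WF ≤ N * L ^ 8 := by
    refine le_trans (sum_le_sum fun n _ => ?_) hbG
    rw [hG']
    exact pow_le_pow_left₀ (norm_nonneg _) (norm_tr_le _ _ _) 2
  set c1 := (N : ℝ) ^ 2 / (q * L ^ (A + 9)) with hc1
  set c2 := L ^ C * ((N : ℝ) ^ 2 / (q * L ^ (A + 2 * C + 9))) with hc2
  have hc10 : 0 ≤ c1 := by positivity
  have hc20 : 0 ≤ c2 := by positivity
  have hK : ((⌊L ^ C⌋₊ : ℕ) : ℝ) ≤ L ^ C := Nat.floor_le (by positivity)
  have main := h4C q N F' G' hN1 a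
  have step : ∑ t ∈ range (2 * N + 1), ‖∑ l : ZMod q, cl q N F' ((t : ℝ) / D) l *
      (starRingEnd ℂ) (cl q N G' ((t : ℝ) / D) (l - a))‖ ^ 2 ≤ D * (c1 * (N * L ^ 8) +
        c2 * (L ^ C * (2 * (N * L ^ 8)))) := by
    calc ∑ t ∈ range (2 * N + 1), ‖∑ l : ZMod q, cl q N F' ((t : ℝ) / D) l *
        (starRingEnd ℂ) (cl q N G' ((t : ℝ) / D) (l - a))‖ ^ 2
        ≤ ∑ t ∈ range (2 * N + 1), (c1 * P q N F' ((t : ℝ) / D) +
          c2 * ∑ j ∈ range ⌊L ^ C⌋₊, (P ((j + 1) * q) N F' ((t : ℝ) / D) +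
            P ((j + 1) * q) N G' ((t : ℝ) / D))) :=
          sum_le_sum fun t _ => hpt _
      _ = c1 * (D * WL) + c2 * ∑ j ∈ range ⌊L ^ C⌋₊, (D * WL + D * WF) := by
          rw [sum_add_distrib, ← mul_sum, ← mul_sum, hsumP q F', sum_comm]
          congr 2
          refine sum_congr rfl fun j _ => ?_
          rw [sum_add_distrib, hsumP ((j + 1) * q) F', hsumP ((j + 1) * q) G']
      _ = D * (c1 * WL + c2 * ((⌊L ^ C⌋₊ : ℕ) * (WL + WF))) := by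
          rw [sum_const, card_range, nsmul_eq_mul]
          ring
      _ ≤ D * (c1 * (N * L ^ 8) + c2 * (L ^ C * (2 * (N * L ^ 8)))) := by
          have h0 : 0 ≤ WL + WF := by linarith
          have h1 : WL + WF ≤ 2 * (N * L ^ 8) := by linarith
          gcongr
  have h9 : D * ∑ n ∈ (Icc (-(N : ℤ)) N).filter (fun n : ℤ => (n : ZMod q) = a),
      ‖∑ b ∈ Icc 1 N, ∑ c ∈ Icc 1 N, if (b : ℤ) - c = n then F' b * (starRingEnd ℂ) (G' c) else 0‖ ^ 2 ≤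
        D * (c1 * (N * L ^ 8) + c2 * (L ^ C * (2 * (N * L ^ 8)))) := main.le.trans step
  have h10 := le_of_mul_le_mul_left h9 hD0
  have h11 : ∑ n ∈ (Icc (-(N : ℤ)) N).filter (fun n : ℤ => (n : ZMod q) = a),
      ‖∑ b ∈ Icc 1 y₁, ∑ c ∈ Icc 1 y₂, if (b : ℤ) - c = n then F b * (starRingEnd ℂ) (G c) else 0‖ ^ 2 =
      ∑ n ∈ (Icc (-(N : ℤ)) N).filter (fun n : ℤ => (n : ZMod q) = a),
      ‖∑ b ∈ Icc 1 N, ∑ c ∈ Icc 1 N, if (b : ℤ) - c = n then F' b * (starRingEnd ℂ) (G' c) else 0‖ ^ 2 := by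
    refine sum_congr rfl fun n _ => ?_
    rw [hF', hG', convC_tr hy₁ hy₂]
  unfold cvd
  rw [h11]
  refine h10.trans ?_
  have e1 : c1 * (N * L ^ 8) = (N : ℝ) ^ 3 / (q * L ^ A) * (1 / L) := by
    rw [hc1, show A + 9 = A + 8 + 1 by ring, pow_succ, pow_add]
    field_simp
    try ring
  have e2 : c2 * (L ^ C * (2 * (N * L ^ 8))) = (N : ℝ) ^ 3 / (q * L ^ A) * (2 / L) := by
    rw [hc2, show A + 2 * C + 9 = A + C + C + 8 + 1 by ring, pow_succ, pow_add, pow_add, pow_add]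
    field_simp
    try ring
  rw [e1, e2, ← mul_add]
  have e3 : 1 / L + 2 / L ≤ 1 := by
    rw [← add_div, div_le_one hL0]
    linarith
  calc (N : ℝ) ^ 3 / (q * L ^ A) * (1 / L + 2 / L) ≤ (N : ℝ) ^ 3 / (q * L ^ A) * 1 := by gcongr
    _ = _ := mul_one _


end Pool.Agent.R460.GP
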