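import Pool.Agent.R460.GS.Det

set_option autoImplicit false

/-! The main term for pairs with a positive shift: deterministic part. -/

namespace Pool.Agent.R460.GP

open Finset
open Pool.Agent.R460.GS

lemma WB_shift {W : ℕ → ℝ} {c : ℝ} {N : ℕ} (h : WB W c N) {n y : ℕ} (hy : y + n ≤ N) :
    ∑ i ∈ range y, |W (i + 1 + n) - W (i + n)| ≤ c := by
  have e1 : ∑ i ∈ range y, |W (i + 1 + n) - W (i + n)| = ∑ j ∈ Ico n (n + y), |W (j + 1) - W j| := by
    rw [sum_Ico_eq_sum_range]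
    refine sum_congr (by rw [Nat.add_sub_cancel_left]) fun i _ => ?_
    rw [show i + 1 + n = n + i + 1 by ring, show i + n = n + i by ring]
  rw [e1]
  refine le_trans (sum_le_sum_of_subset_of_nonneg (fun j hj => ?_) fun _ _ _ => abs_nonneg _) h.h2
  rw [mem_Ico] at hj
  rw [mem_range]
  omega

lemma WB_prod {W : ℕ → ℝ} {c : ℝ} {N : ℕ} (h : WB W c N) {n y : ℕ} (hy : y + n ≤ N) :
    ∑ i ∈ range y, |W (i + 1) * W (i + 1 + n) - W i * W (i + n)| ≤ 2 * c ^ 2 := by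
  have hc := h.nn
  have e1 : ∀ i ∈ range y, |W (i + 1) * W (i + 1 + n) - W i * W (i + n)| ≤
      c * |W (i + 1 + n) - W (i + n)| + c * |W (i + 1) - W i| := by
    intro i hi
    rw [mem_range] at hi
    have e2 : W (i + 1) * W (i + 1 + n) - W i * W (i + n) =
        W (i + 1) * (W (i + 1 + n) - W (i + n)) + W (i + n) * (W (i + 1) - W i) := by ring
    rw [e2]
    refine (abs_add_le _ _).trans ?_
    rw [abs_mul, abs_mul, abs_of_nonneg (h.h0 _), abs_of_nonneg (h.h0 _)]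
    exact add_le_add (mul_le_mul_of_nonneg_right (h.h1 _ (by omega)) (abs_nonneg _))
      (mul_le_mul_of_nonneg_right (h.h1 _ (by omega)) (abs_nonneg _))
  refine (sum_le_sum e1).trans ?_
  rw [sum_add_distrib, ← mul_sum, ← mul_sum]
  have k1 := WB_shift h hy
  have k2 := h.tv (y := y) (by omega)
  nlinarith

/-- the main term with weights -/
lemma det_mainP {N n y₁ y₂ : ℕ} {W la lz : ℕ → ℝ} {c S ε : ℝ} (hW : WB W c N) (h12 : y₁ ≤ y₂)
    (h2 : y₂ + n ≤ N)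
    (hm1 : ∀ y, y + n ≤ N → |∑ b ∈ Icc 1 y, la b * lz (b + n) - S * y| ≤ ε)
    (hm2 : ∀ y, y + n ≤ N → |∑ b ∈ Icc 1 y, lz b * la (b + n) - S * y| ≤ ε)
    (hm3 : ∀ y, y + n ≤ N → |∑ b ∈ Icc 1 y, lz b * lz (b + n) - S * y| ≤ ε) :
    |∑ b ∈ Ioc y₁ y₂, (la b * (W (b + n) * lz (b + n)) + (W b * lz b) * la (b + n) -
        (W b * lz b) * (W (b + n) * lz (b + n))) -
      S * ∑ b ∈ Ioc y₁ y₂, (W (b + n) + W b - W b * W (b + n))| ≤ (12 * c + 6 * c ^ 2) * ε := by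
  have hc := hW.nn
  have hε : 0 ≤ ε := (abs_nonneg _).trans (hm1 0 (by omega))
  have cst : ∀ m : ℕ, ∑ _i ∈ Icc 1 m, S = S * m := by
    intro m
    rw [sum_const, Nat.card_Icc, nsmul_eq_mul, Nat.add_sub_cancel, mul_comm]
  have p1 : ∀ m ≤ y₂, |∑ i ∈ Icc 1 m, (la i * lz (i + n) - S)| ≤ ε := by
    intro m hm
    rw [sum_sub_distrib, cst]
    exact hm1 m (by omega)
  have p2 : ∀ m ≤ y₂, |∑ i ∈ Icc 1 m, (lz i * la (i + n) - S)| ≤ ε := by
    intro m hm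
    rw [sum_sub_distrib, cst]
    exact hm2 m (by omega)
  have p3 : ∀ m ≤ y₂, |∑ i ∈ Icc 1 m, (lz i * lz (i + n) - S)| ≤ ε := by
    intro m hm
    rw [sum_sub_distrib, cst]
    exact hm3 m (by omega)
  have q1 := abelW (fun i => la i * lz (i + n) - S) (fun i => W (i + n)) ε c c y₁ y₂ h12 p1
    (fun i hi => by
      rw [mem_Icc] at hi
      rw [abs_of_nonneg (hW.h0 _)]
      exact hW.h1 _ (by omega)) (WB_shift hW h2) hc
  have q2 := abelW (fun i => lz i * la (i + n) - S) (fun i => W i) ε c c y₁ y₂ h12 p2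
    (fun i hi => by
      rw [mem_Icc] at hi
      rw [abs_of_nonneg (hW.h0 _)]
      exact hW.h1 _ (by omega)) (hW.tv (by omega)) hc
  have q3 := abelW (fun i => lz i * lz (i + n) - S) (fun i => W i * W (i + n)) ε (c ^ 2) (2 * c ^ 2) y₁ y₂ h12 p3
    (fun i hi => by
      rw [mem_Icc] at hi
      rw [abs_mul, abs_of_nonneg (hW.h0 _), abs_of_nonneg (hW.h0 _), sq]
      exact mul_le_mul (hW.h1 _ (by omega)) (hW.h1 _ (by omega)) (hW.h0 _) hc) (WB_prod hW h2) (sq_nonneg c)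
  have e : ∑ b ∈ Ioc y₁ y₂, (la b * (W (b + n) * lz (b + n)) + (W b * lz b) * la (b + n) -
        (W b * lz b) * (W (b + n) * lz (b + n))) -
      S * ∑ b ∈ Ioc y₁ y₂, (W (b + n) + W b - W b * W (b + n)) =
      ∑ i ∈ Ioc y₁ y₂, W (i + n) * (la i * lz (i + n) - S) + ∑ i ∈ Ioc y₁ y₂, W i * (lz i * la (i + n) - S) -
      ∑ i ∈ Ioc y₁ y₂, W i * W (i + n) * (lz i * lz (i + n) - S) := by
    rw [mul_sum, ← sum_sub_distrib, ← sum_add_distrib, ← sum_sub_distrib]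
    refine sum_congr rfl fun b _ => ?_
    ring
  rw [e]
  have k1 := abs_sub (∑ i ∈ Ioc y₁ y₂, W (i + n) * (la i * lz (i + n) - S) +
    ∑ i ∈ Ioc y₁ y₂, W i * (lz i * la (i + n) - S)) (∑ i ∈ Ioc y₁ y₂, W i * W (i + n) * (lz i * lz (i + n) - S))
  have k2 := abs_add_le (∑ i ∈ Ioc y₁ y₂, W (i + n) * (la i * lz (i + n) - S))
    (∑ i ∈ Ioc y₁ y₂, W i * (lz i * la (i + n) - S))
  have k3 : 0 ≤ c * ε := mul_nonneg hc hε
  nlinarith

/-- the density of the main term -/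
lemma dens_lowerP {N n y₁ y₂ : ℕ} {W : ℕ → ℝ} {c X : ℝ} (hW : WB W c N) (h12 : y₁ ≤ y₂)
    (h2 : y₂ + n ≤ N) (hX : 0 ≤ X) (hd : ∀ b : ℕ, b ≤ N → X ≤ b → 1 ≤ W b ∧ W b ≤ 197 / 100) :
    59 / 1000 * ((y₂ : ℝ) - y₁) - (c ^ 2 + 1) * (2 * X + 2) ≤
      ∑ b ∈ Ioc y₁ y₂, (W (b + n) + W b - W b * W (b + n)) := by
  classical
  have hc := hW.nn
  have h1 : ∀ b ∈ Ioc y₁ y₂, 59 / 1000 - (if (b : ℝ) < X then (c ^ 2 + 1) else 0) -
      (if ((b + n : ℕ) : ℝ) < X then (c ^ 2 + 1) else 0) ≤ W (b + n) + W b - W b * W (b + n) := by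
    intro b hb
    rw [mem_Ioc] at hb
    have k1 := hW.h0 b
    have k2 := hW.h0 (b + n)
    have k3 := hW.h1 b (by omega)
    have k4 := hW.h1 (b + n) (by omega)
    have k5 : W b * W (b + n) ≤ c ^ 2 := by
      rw [sq]
      exact mul_le_mul k3 k4 k2 hc
    by_cases a1 : (b : ℝ) < X
    · rw [if_pos a1]
      have : (0 : ℝ) ≤ (if ((b + n : ℕ) : ℝ) < X then (c ^ 2 + 1) else 0) := by
        split_ifs
        · positivity
        · exact le_rfl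
      linarith
    · by_cases a2 : ((b + n : ℕ) : ℝ) < X
      · rw [if_neg a1, if_pos a2]
        linarith
      · rw [if_neg a1, if_neg a2]
        obtain ⟨d1, d2⟩ := hd b (by omega) (not_lt.1 a1)
        obtain ⟨d3, d4⟩ := hd (b + n) (by omega) (not_lt.1 a2)
        have d5 : (W b - 1) * (W (b + n) - 1) ≤ (97 / 100) * (97 / 100) :=
          mul_le_mul (by linarith) (by linarith) (by linarith) (by norm_num)
        nlinarith
  refine le_trans ?_ (sum_le_sum h1)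
  rw [sum_sub_distrib, sum_sub_distrib, sum_const, Nat.card_Ioc, nsmul_eq_mul, ← sum_filter, ← sum_filter,
    sum_const, sum_const, nsmul_eq_mul, nsmul_eq_mul]
  have e3 : ((⌊X⌋₊ : ℕ) : ℝ) ≤ X := Nat.floor_le hX
  have c1 : (((Ioc y₁ y₂).filter (fun b : ℕ => (b : ℝ) < X)).card : ℝ) ≤ X + 1 := by
    have e1 : (Ioc y₁ y₂).filter (fun b : ℕ => (b : ℝ) < X) ⊆ Icc 1 ⌊X⌋₊ := by
      intro b hb
      rw [mem_filter, mem_Ioc] at hb
      rw [mem_Icc]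
      exact ⟨by omega, Nat.le_floor hb.2.le⟩
    have e2 := card_le_card e1
    rw [Nat.card_Icc, Nat.add_sub_cancel] at e2
    have e4 : (((Ioc y₁ y₂).filter (fun b : ℕ => (b : ℝ) < X)).card : ℝ) ≤ ((⌊X⌋₊ : ℕ) : ℝ) := by exact_mod_cast e2
    linarith
  have c2 : (((Ioc y₁ y₂).filter (fun b : ℕ => ((b + n : ℕ) : ℝ) < X)).card : ℝ) ≤ X + 1 := by
    have e1 : (Ioc y₁ y₂).filter (fun b : ℕ => ((b + n : ℕ) : ℝ) < X) ⊆ Icc 1 ⌊X⌋₊ := by
      intro b hb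
      rw [mem_filter, mem_Ioc] at hb
      rw [mem_Icc]
      refine ⟨by omega, Nat.le_floor ?_⟩
      have h3 : (b : ℝ) ≤ ((b + n : ℕ) : ℝ) := by exact_mod_cast Nat.le_add_right b n
      linarith [hb.2]
    have e2 := card_le_card e1
    rw [Nat.card_Icc, Nat.add_sub_cancel] at e2
    have e4 : (((Ioc y₁ y₂).filter (fun b : ℕ => ((b + n : ℕ) : ℝ) < X)).card : ℝ) ≤ ((⌊X⌋₊ : ℕ) : ℝ) := by
      exact_mod_cast e2
    linarith
  have c3 : ((y₂ - y₁ : ℕ) : ℝ) = (y₂ : ℝ) - y₁ := Nat.cast_sub h12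
  rw [c3]
  have hc1 : 0 ≤ c ^ 2 + 1 := by positivity
  nlinarith [mul_le_mul_of_nonneg_right c1 hc1, mul_le_mul_of_nonneg_right c2 hc1]

end Pool.Agent.R460.GP
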