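import Pool.Agent.R460.GS.ErrAll
import Pool.Agent.R460.GP.Core3
import Pool.Agent.R460.GR.D7

set_option autoImplicit false

/-! The error terms for prime pairs. -/

namespace Pool.Agent.R460.GP

open Finset
open Pool.Agent.H807R2.Dav (ee)
open Pool.Agent.H373R2.T7 (lamz Vz pz lamz_ap)
open Pool.Agent.Y883.T3 (lsh)
open Pool.Agent.Y883.GJ
open Pool.Agent.R460.GS
open Pool.Agent.R460.GR (RegAt mG3 D1_card D2_card D2_large reg_f0 D2)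
open Pool.Agent.Y614.GJ.Core (ev_log)

/-- ERRP: all error terms -/
def ErrPStm : Prop := ∀ (A T U₀ : ℕ) (ρ : ℝ), 0 < ρ → ∃ B : ℕ, ∀ E : ℕ, ∃ N₀ : ℕ, ∀ N : ℕ, N₀ ≤ N → ∀ z : ℕ,
  Real.log N ^ B ≤ z → (z : ℝ) ≤ Real.log N ^ E → ∃ r : ℕ, Par U₀ N z r ∧
    ∑ n ∈ Icc 1 N, |lamz z n - lsh z r n| ≤ N / Real.log N ^ U₀ ∧
    ∀ F : ℕ → ℂ, (F = LA ∨ F = GG N ∨ F = HH N z r) →
    ∀ (q : ℕ) [NeZero q], (q : ℝ) ≤ (N : ℝ) ^ (7 / 10 - ρ) → ∀ a : ZMod q,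
    (Nat.gcd a.val q : ℝ) ≤ Real.log N ^ T → ∀ y₁ y₂ : ℕ, y₁ ≤ N → y₂ ≤ N →
      ∑ n ∈ (Icc (-(N : ℤ)) N).filter (fun n : ℤ => (n : ZMod q) = a),
        ‖cvd F (f0 N z r) y₁ y₂ n‖ ^ 2 ≤ (N : ℝ) ^ 3 / (q * Real.log N ^ A)

/-- ERRPR: all error terms, for the moduli which are not divisible by one of few large integers -/
def ErrPRStm : Prop := ∀ (A U₀ : ℕ) (ρ : ℝ), 0 < ρ → ∃ c : ℕ, ∀ A₀ : ℕ, ∃ B : ℕ, ∀ E : ℕ, ∃ N₀ : ℕ, ∀ N : ℕ, N₀ ≤ N →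
  ∃ D : Finset ℕ, (D.card : ℝ) ≤ Real.log N ^ c ∧ (∀ d ∈ D, Real.log N ^ A₀ < (d : ℝ)) ∧
  ∀ z : ℕ, Real.log N ^ B ≤ z → (z : ℝ) ≤ Real.log N ^ E → ∃ r : ℕ, Par U₀ N z r ∧
    ∑ n ∈ Icc 1 N, |lamz z n - lsh z r n| ≤ N / Real.log N ^ U₀ ∧
    ∀ F : ℕ → ℂ, (F = LA ∨ F = GG N ∨ F = HH N z r) →
    ∀ (q : ℕ) [NeZero q], (q : ℝ) ≤ (N : ℝ) ^ (7 / 10 - ρ) → (∀ d ∈ D, ¬ d ∣ q) → ∀ a : ZMod q,
    ∀ y₁ y₂ : ℕ, y₁ ≤ N → y₂ ≤ N →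
      ∑ n ∈ (Icc (-(N : ℤ)) N).filter (fun n : ℤ => (n : ZMod q) = a),
        ‖cvd F (f0 N z r) y₁ y₂ n‖ ^ 2 ≤ (N : ℝ) ^ 3 / (q * Real.log N ^ A)

theorem err_allP (hCore : Core2PStm) (hShm : ShmStm) (hShl : ShlStm) (hMG : MGStm) (hNG : NGStm)
    (hMH : MHStm) (hNH : NHStm) (hWtb : WtbStm) (hApg : ApgStm) (hModel : ModelStm) : ErrPStm := by
  intro A T U₀ ρ hρ
  have hρ2 : 0 < ρ / 2 := by positivity
  obtain ⟨A₁, hC1⟩ := hCore A T ρ hρ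
  obtain ⟨Cg, Ng, hg⟩ := hNG (A₁ + 2) (ρ / 2) hρ2
  obtain ⟨Ch, Nh, hh⟩ := hNH (A₁ + 2) (ρ / 2) hρ2
  obtain ⟨C, hC⟩ : ∃ C, C = max Cg Ch := ⟨_, rfl⟩
  obtain ⟨A₂, hC2⟩ := hC1 C
  obtain ⟨C₃, Nm1, hm1⟩ := hMG (A₂ + 2) C (ρ / 2) hρ2
  obtain ⟨Nm2, hm2⟩ := hMH (A₂ + 2) C (ρ / 2) hρ2
  obtain ⟨B₂, hC3⟩ := hC2 C₃
  obtain ⟨A₂', hs⟩ := hShm B₂ C (T + C) (ρ / 2) hρ2
  obtain ⟨C₃', Nm3, hm3⟩ := hMG A₂' C (ρ / 2) hρ2
  obtain ⟨Nm4, hm4⟩ := hMH A₂' C (ρ / 2) hρ2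
  obtain ⟨K₁, Ns1, hs1⟩ := hs C₃'
  obtain ⟨K₂, Ns2, hs2⟩ := hShl B₂ C (T + C) (ρ / 2) hρ2
  obtain ⟨K, hK⟩ : ∃ K, K = max K₁ K₂ := ⟨_, rfl⟩
  obtain ⟨U, Nc, hC4⟩ := hC3 K
  obtain ⟨U₁, hU₁⟩ : ∃ U₁, U₁ = max U₀ (max (U + 2) (B₂ + 3)) := ⟨_, rfl⟩
  obtain ⟨Bm, hBm⟩ := hModel U₁
  obtain ⟨ct, Nw, hWB⟩ := wb_of hWtb
  refine ⟨max Bm K, fun E => ?_⟩
  obtain ⟨Nmo, hmo⟩ := hBm E
  obtain ⟨Nl, hl⟩ := lamz_ap E (U + 2)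
  obtain ⟨Na, ha⟩ := hApg K (U + 2)
  obtain ⟨Ne, hNe⟩ := Filter.eventually_atTop.1 (ev_log (U + B₂ + 8) (s := 3 / 10) (by norm_num) (4 + 4 * |ct|))
  refine ⟨Ng + Nh + Nm1 + Nm2 + Nm3 + Nm4 + Ns1 + Ns2 + Nc + Nw + Nmo + Nl + Na + Ne + 1, fun N hN z hz1 hz2 => ?_⟩
  have hN1 : 1 ≤ N := by omega
  obtain ⟨hLe, hLp⟩ := hNe N (by omega)
  have hct := abs_nonneg ct
  have hctl := le_abs_self ct
  have hL1 : 1 ≤ Real.log N := by linarith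
  have hL2 : 2 ≤ Real.log N := by linarith
  have hzB : Real.log N ^ Bm ≤ z := (pow_le_pow_right₀ hL1 (le_max_left _ _)).trans hz1
  have hzK : Real.log N ^ K ≤ z := (pow_le_pow_right₀ hL1 (le_max_right _ _)).trans hz1
  have hz1' : 1 ≤ z := by
    have : (1 : ℝ) ≤ z := (one_le_pow₀ hL1).trans hz1
    exact_mod_cast this
  obtain ⟨r, hPar, hsum⟩ := hmo N (by omega) z hzB hz2
  have hW := hWB N (by omega)
  have hct0 := hW.nn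
  have hdiv : ∀ V : ℕ, V ≤ U₁ → (N : ℝ) / Real.log N ^ U₁ ≤ N / Real.log N ^ V := fun V hV =>
    div_le_div_of_nonneg_left (Nat.cast_nonneg _) (by positivity) (pow_le_pow_right₀ hL1 hV)
  have hU0 : U₀ ≤ U₁ := by rw [hU₁]; exact le_max_left _ _
  have hU2 : U + 2 ≤ U₁ := by rw [hU₁]; exact (le_max_left _ _).trans (le_max_right _ _)
  have hU3 : B₂ + 3 ≤ U₁ := by rw [hU₁]; exact (le_max_right _ _).trans (le_max_right _ _)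
  have hP0 := par_mono hL1 hU0 hPar
  have hP2 := par_mono hL1 hU2 hPar
  have hP3 := par_mono hL1 hU3 hPar
  refine ⟨r, hP0, hsum.trans (hdiv _ hU0), ?_⟩
  intro F hF q _ hq a hgcd y₁ y₂ hy₁ hy₂
  -- the conditions of the core estimate
  have hMHs := fun (q : ℕ) [NeZero q] (hq : (q : ℝ) ≤ (N : ℝ) ^ (7 / 10 - ρ / 2)) => hm2 N (by omega) q hq z r
    hPar.hD hPar.hV
  have hMin : MinAt N (ρ / 2) A₁ C (f0 N z r) := by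
    rw [hC]
    exact min_f0 hL2 (hg N (by omega)) (hh N (by omega) z r hPar.hD hPar.hV)
  have hMaj : MajAt N (ρ / 2) A₂ C C₃ (f0 N z r) :=
    maj_f0 hL2 (hm1 N (by omega)) (fun q _ hq => hm2 N (by omega) q hq z r hPar.hD hPar.hV)
  have hAp : ApAt N K U (f0 N z r) := by
    refine ap_f0 hW (by linarith) ?_ (hsum.trans (hdiv _ hU2)) (ha N (by omega))
    intro q hq hqK c y hy
    refine hl N (by omega) z hz1' hz2 q hq ?_ c y hy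
    exact_mod_cast hqK.trans hzK
  have hLpow : Real.log N ^ (U + 4) ≤ (N : ℝ) ^ (3 / 10 : ℝ) :=
    (pow_le_pow_right₀ hL1 (by omega)).trans hLp
  have hNc : NcAt N U (f0 N z r) := nc_f0 hN1 hW hP2 (by linarith) hLpow
  have hBdF : BdAt N F := by
    rcases hF with h | h | h
    · rw [h]; exact bd_LA hL1
    · rw [h]; exact bd_GG hL1
    · rw [h]; exact bd_HH hW hPar (by linarith)
  have hSh : ShAt N (ρ / 2) B₂ C (T + C) K F := by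
    rcases hF with h | h | h
    · rw [h]
      exact sh_mono hL1 (by rw [hK]; exact le_max_right _ _) (hs2 N (by omega))
    · rw [h]
      refine sh_mono hL1 (by rw [hK]; exact le_max_left _ _) (hs1 N (by omega) _ (bd_GG hL1) ?_ (hm3 N (by omega)))
      exact nc_GG hN1 hL2 ((pow_le_pow_right₀ hL1 (by omega)).trans hLp)
    · rw [h]
      refine sh_mono hL1 (by rw [hK]; exact le_max_left _ _) (hs1 N (by omega) _ (bd_HH hW hPar (by linarith)) ?_ ?_)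
      · exact nc_HH hW (par_mono hL1 (by omega) hP3) (by linarith)
      · exact maj_HH hL1 (fun q _ hq => hm4 N (by omega) q hq z r hPar.hD hPar.hV)
  exact hC4 N (by omega) F (f0 N z r) hBdF (bd_f0 hW hPar (by linarith)) hMin hMaj hAp hNc hSh q hq a hgcd y₁ y₂
    hy₁ hy₂



theorem errPR (h1 : L2Stm) (hT2 : TiMaj2Stm) (hCore : Core3PStm) (hMG : MGStm) (hNG : NGStm)
    (hMH : MHStm) (hNH : NHStm) (hWtb : WtbStm) (hApg : ApgStm) (hModel : ModelStm) : ErrPRStm := by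
  intro A U₀ ρ hρ
  have hρ2 : 0 < ρ / 2 := by positivity
  obtain ⟨A₁, hC1⟩ := hCore A ρ hρ
  obtain ⟨Cg, Ng, hg⟩ := hNG (A₁ + 2) (ρ / 2) hρ2
  obtain ⟨Ch, Nh, hh⟩ := hNH (A₁ + 2) (ρ / 2) hρ2
  obtain ⟨C, hC⟩ : ∃ C, C = max Cg Ch := ⟨_, rfl⟩
  obtain ⟨A₂, hC2⟩ := hC1 C
  obtain ⟨C₃, Nm1, hm1⟩ := hMG (A₂ + 2) C (ρ / 2) hρ2
  obtain ⟨Nm2, hm2⟩ := hMH (A₂ + 2) C (ρ / 2) hρ2
  obtain ⟨U₂, hC3⟩ := hC2 C₃
  obtain ⟨Nm3, hm3⟩ := hMH (2 * (U₂ + C + 4)) C (ρ / 2) hρ2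
  obtain ⟨C₄, Nd, hd⟩ := mG3 h1 hT2 (U₂ + C + 4) (ρ / 2) hρ2
  refine ⟨C₄ + C, fun A₀ => ?_⟩
  obtain ⟨K, hK⟩ : ∃ K, K = (A₀ + 1) + C := ⟨_, rfl⟩
  obtain ⟨U, Nc, hC4⟩ := hC3 K
  obtain ⟨U₁, hU₁⟩ : ∃ U₁, U₁ = max U₀ (U + 2) := ⟨_, rfl⟩
  obtain ⟨Bm, hBm⟩ := hModel U₁
  obtain ⟨ct, Nw, hWB⟩ := wb_of hWtb
  refine ⟨max Bm K, fun E => ?_⟩
  obtain ⟨Nmo, hmo⟩ := hBm E
  obtain ⟨Nl, hl⟩ := lamz_ap E (U + 2)
  obtain ⟨Na, ha⟩ := hApg K (U + 2)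
  obtain ⟨Ne, hNe⟩ := Filter.eventually_atTop.1 (ev_log (U + U₂ + C + 8) (s := 3 / 10) (by norm_num)
    (16 + 4 * |ct|))
  obtain ⟨Nf, hNf⟩ := Filter.eventually_atTop.1 (ev_log C (s := ρ / 2) (by positivity) 1)
  refine ⟨Ng + Nh + Nm1 + Nm2 + Nm3 + Nd + Nc + Nw + Nmo + Nl + Na + Ne + Nf + 1, fun N hN => ?_⟩
  have hN1 : 1 ≤ N := by omega
  have hN0 : (0 : ℝ) < N := by exact_mod_cast hN1
  obtain ⟨hLe, hLp⟩ := hNe N (by omega)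
  obtain ⟨-, hLC⟩ := hNf N (by omega)
  have hct := abs_nonneg ct
  have hctl := le_abs_self ct
  have hL1 : 1 ≤ Real.log N := by linarith
  have hL2 : 2 ≤ Real.log N := by linarith
  refine ⟨D2 N (U₂ + C + 4) K C (ρ / 2), ?_, ?_, ?_⟩
  · exact D2_card hL1 (D1_card K (fun Ψ hΨ => hd N (by omega) Ψ (fun ψ hψ => hΨ ψ hψ)))
  · intro d hd
    have h2 := D2_large (A₀ := A₀ + 1) hL1 hK hd
    exact lt_of_le_of_lt (pow_le_pow_right₀ hL1 (Nat.le_succ _)) h2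
  intro z hz1 hz2
  have hzB : Real.log N ^ Bm ≤ z := (pow_le_pow_right₀ hL1 (le_max_left _ _)).trans hz1
  have hzK : Real.log N ^ K ≤ z := (pow_le_pow_right₀ hL1 (le_max_right _ _)).trans hz1
  have hz1' : 1 ≤ z := by
    have : (1 : ℝ) ≤ z := (one_le_pow₀ hL1).trans hz1
    exact_mod_cast this
  obtain ⟨r, hPar, hsum⟩ := hmo N (by omega) z hzB hz2
  have hW := hWB N (by omega)
  have hct0 := hW.nn
  have hdiv : ∀ V : ℕ, V ≤ U₁ → (N : ℝ) / Real.log N ^ U₁ ≤ N / Real.log N ^ V := fun V hV =>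
    div_le_div_of_nonneg_left (Nat.cast_nonneg _) (by positivity) (pow_le_pow_right₀ hL1 hV)
  have hU0 : U₀ ≤ U₁ := by rw [hU₁]; exact le_max_left _ _
  have hU2 : U + 2 ≤ U₁ := by rw [hU₁]; exact le_max_right _ _
  have hP0 := par_mono hL1 hU0 hPar
  have hP2 := par_mono hL1 hU2 hPar
  refine ⟨r, hP0, hsum.trans (hdiv _ hU0), ?_⟩
  intro F hF q _ hq hqD a y₁ y₂ hy₁ hy₂
  have hMin : MinAt N (ρ / 2) A₁ C (f0 N z r) := by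
    rw [hC]
    exact min_f0 hL2 (hg N (by omega)) (hh N (by omega) z r hPar.hD hPar.hV)
  have hMaj : MajAt N (ρ / 2) A₂ C C₃ (f0 N z r) :=
    maj_f0 hL2 (hm1 N (by omega)) (fun q _ hq => hm2 N (by omega) q hq z r hPar.hD hPar.hV)
  have hAp : ApAt N K U (f0 N z r) := by
    refine ap_f0 hW (by linarith) ?_ (hsum.trans (hdiv _ hU2)) (ha N (by omega))
    intro q hq hqK c y hy
    refine hl N (by omega) z hz1' hz2 q hq ?_ c y hy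
    exact_mod_cast hqK.trans hzK
  have hLpow : Real.log N ^ (U + 4) ≤ (N : ℝ) ^ (3 / 10 : ℝ) :=
    (pow_le_pow_right₀ hL1 (by omega)).trans hLp
  have hNc : NcAt N U (f0 N z r) := nc_f0 hN1 hW hP2 (by linarith) hLpow
  have hBdF : BdAt N F := by
    rcases hF with h | h | h
    · rw [h]; exact bd_LA hL1
    · rw [h]; exact bd_GG hL1
    · rw [h]; exact bd_HH hW hPar (by linarith)
  have hqC : (q : ℝ) * Real.log N ^ C ≤ (N : ℝ) ^ (7 / 10 - ρ / 2) := by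
    calc (q : ℝ) * Real.log N ^ C ≤ (N : ℝ) ^ (7 / 10 - ρ) * (N : ℝ) ^ (ρ / 2) := by gcongr
      _ = (N : ℝ) ^ (7 / 10 - ρ / 2) := by
          rw [← Real.rpow_add hN0]
          congr 1
          ring
  have hReg : RegAt N C K U₂ (f0 N z r) q :=
    reg_f0 hN1 (by linarith) hqC hρ2 (NeZero.pos q)
      (nc_GG hN1 hL2 ((pow_le_pow_right₀ hL1 (by omega)).trans hLp))
      (fun q _ hq => hm3 N (by omega) q hq z r hPar.hD hPar.hV) hqD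
  exact hC4 N (by omega) F (f0 N z r) hBdF (bd_f0 hW hPar (by linarith)) hMin hMaj hAp hNc q hq hReg a y₁ y₂
    hy₁ hy₂

end Pool.Agent.R460.GP
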