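import Pool.Agent.R460.GP.Grid
import Pool.Agent.R460.GS.Fin

set_option autoImplicit false

/-! Prime pairs: from the grid to all windows, and the number of exceptions. -/

namespace Pool.Agent.R460.GP

open Finset
open Pool.Agent.H373R2.T7 (lamz Vz pz lamI lamzI Vz_pos)
open Pool.Agent.Y883.T3 (lsh)
open Pool.Agent.Y883.GJ
open Pool.Agent.R460.GS
open Pool.Agent.H560R3.GB (sing C₂)
open Pool.Agent.Y614.GJ.Core (ev_log)
open Pool.Agent.Y883.T4 (class_le)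

/-- the number of the prime pairs with difference `h` in a window -/
def cntP (h y₁ y₂ : ℕ) : ℕ := ((Ioc y₁ y₂).filter (fun p => p.Prime ∧ (p + h).Prime)).card

/-- at least `55 / 1000` of the expected number of prime pairs with difference `h`, in all windows -/
def PairL (A N h : ℕ) : Prop :=
  ∀ y₁ y₂ : ℕ, y₁ < y₂ → y₂ + h ≤ N → (N : ℝ) / Real.log N ^ A ≤ (y₂ : ℝ) - y₁ →
    55 / 1000 * (sing h * ((y₂ : ℝ) - y₁) / Real.log N ^ 2) ≤ (cntP h y₁ y₂ : ℝ)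

open Classical in
/-- the exceptional even differences in a residue class -/
noncomputable def badP (A N q a : ℕ) : Finset ℕ :=
  (Icc 1 N).filter (fun h => 2 ∣ h ∧ h % q = a % q ∧ ¬ PairL A N h)

/-- the prime powers are negligible -/
lemma wnp_le {N h y₁ y₂ : ℕ} (hN : 1 ≤ N) (h2 : y₂ + h ≤ N) :
    wnp h y₁ y₂ ≤ Real.log N ^ 2 * cntP h y₁ y₂ + 4 * √(N : ℝ) * Real.log N ^ 2 := by
  classical
  obtain ⟨L, hL⟩ : ∃ L, L = Real.log (N : ℝ) := ⟨_, rfl⟩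
  have hL0 : 0 ≤ L := by rw [hL]; exact Real.log_natCast_nonneg _
  have hNr : (1 : ℝ) ≤ N := by exact_mod_cast hN
  obtain ⟨F, hF⟩ : ∃ F : ℕ → ℝ, F = fun n => if ¬ n.Prime then la n else 0 := ⟨_, rfl⟩
  have hF0 : ∀ n, 0 ≤ F n := by
    intro n
    rw [hF]
    simp only
    split_ifs
    · exact le_rfl
    · exact la_nn n
  have hpp : ∑ n ∈ Icc 1 N, F n ≤ 2 * √(N : ℝ) * L := by
    have h1 := Chebyshev.psi_sub_theta_le hNr
    rw [Chebyshev.psi_sub_theta_eq_sum_not_prime, Nat.floor_natCast, ← hL] at h1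
    have e : Ioc 0 N = Icc 1 N := by
      ext n
      simp only [mem_Ioc, mem_Icc]
      omega
    rw [e] at h1
    rw [hF, ← sum_filter]
    exact h1
  have hle : ∀ n ∈ Icc 1 N, la n ≤ L := by
    intro n hn
    rw [hL]
    exact vm_le hn
  have hpt : ∀ n ∈ Ioc y₁ y₂, la n * la (n + h) ≤
      (if n.Prime ∧ (n + h).Prime then L ^ 2 else 0) + (L * F n + L * F (n + h)) := by
    intro n hn
    rw [mem_Ioc] at hn
    have a1 := hle n (mem_Icc.2 ⟨by omega, by omega⟩)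
    have a2 := hle (n + h) (mem_Icc.2 ⟨by omega, by omega⟩)
    have a3 := la_nn n
    have a4 := la_nn (n + h)
    have b1 := hF0 n
    have b2 := hF0 (n + h)
    by_cases c1 : n.Prime
    · by_cases c2 : (n + h).Prime
      · rw [if_pos ⟨c1, c2⟩]
        nlinarith
      · rw [if_neg (fun h => c2 h.2)]
        have e1 : F (n + h) = la (n + h) := by rw [hF]; simp only [if_pos c2]
        rw [e1]
        have : 0 ≤ L * F n := mul_nonneg hL0 b1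
        nlinarith
    · rw [if_neg (fun h' => c1 h'.1)]
      have e1 : F n = la n := by rw [hF]; simp only [if_pos c1]
      rw [e1]
      have : 0 ≤ L * F (n + h) := mul_nonneg hL0 b2
      nlinarith
  unfold wnp
  refine (sum_le_sum hpt).trans ?_
  rw [sum_add_distrib, sum_add_distrib, ← mul_sum, ← mul_sum]
  have b1 : ∑ n ∈ Ioc y₁ y₂, (if n.Prime ∧ (n + h).Prime then L ^ 2 else 0) = L ^ 2 * cntP h y₁ y₂ := by
    rw [← sum_filter, sum_const, nsmul_eq_mul, mul_comm]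
    rfl
  have b2 : ∑ n ∈ Ioc y₁ y₂, F n ≤ 2 * √(N : ℝ) * L := by
    refine le_trans (sum_le_sum_of_subset_of_nonneg (fun n hn => ?_) fun _ _ _ => hF0 _) hpp
    rw [mem_Ioc] at hn
    rw [mem_Icc]
    omega
  have b3 : ∑ n ∈ Ioc y₁ y₂, F (n + h) ≤ 2 * √(N : ℝ) * L := (shift_le F hF0 h2).trans hpp
  rw [b1, ← hL]
  have b4 := mul_le_mul_of_nonneg_left b2 hL0
  have b5 := mul_le_mul_of_nonneg_left b3 hL0
  have e : L * (2 * √(N : ℝ) * L) + L * (2 * √(N : ℝ) * L) = 4 * √(N : ℝ) * L ^ 2 := by ring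
  linarith

lemma wnp_mono (h : ℕ) {a b c d : ℕ} (h1 : a ≤ b) (h2 : c ≤ d) : wnp h b c ≤ wnp h a d := by
  unfold wnp
  refine sum_le_sum_of_subset_of_nonneg (fun x hx => ?_) fun x _ _ => mul_nonneg (la_nn _) (la_nn _)
  rw [mem_Ioc] at hx ⊢
  omega

/-- from the grid to all windows -/
lemma windows_of_gridP (A : ℕ) : ∃ N₀ : ℕ, ∀ N : ℕ, N₀ ≤ N → ∀ H : ℕ, 1 ≤ H →
    (H : ℝ) ≤ 2 * (N / Real.log N ^ (2 * A + 4)) → ∀ h : ℕ, sing h ≤ 2 * Real.log N →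
    (∀ i j : ℕ, i ≤ j → j * H + h ≤ N →
      59 / 1000 * (sing h * (((j * H : ℕ) : ℝ) - ((i * H : ℕ) : ℝ))) - N / Real.log N ^ (2 * A + 4) ≤
        wnp h (i * H) (j * H)) → PairL A N h := by
  obtain ⟨N₁, h1⟩ := Filter.eventually_atTop.1 (ev_log (3 * A + 10) (s := 1 / 4) (by norm_num) 10000)
  refine ⟨N₁ + 2, fun N hN H hH1 hH h hS2 hgrid y₁ y₂ h12 h2 hlen => ?_⟩
  have hN1 : 1 ≤ N := by omega
  have hN0 : (0 : ℝ) < N := by exact_mod_cast hN1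
  obtain ⟨hL, hLp⟩ := h1 N (by omega)
  have h5 := wnp_le (y₁ := y₁) hN1 h2
  obtain ⟨L, hLd⟩ : ∃ L, L = Real.log (N : ℝ) := ⟨_, rfl⟩
  rw [← hLd] at hL hLp hH hS2 hgrid hlen h5 ⊢
  have hL0 : 0 < L := by linarith
  have hL1 : 1 ≤ L := by linarith
  obtain ⟨Δ, hΔ⟩ : ∃ Δ : ℝ, Δ = (y₂ : ℝ) - y₁ := ⟨_, rfl⟩
  obtain ⟨S, hSd⟩ : ∃ S : ℝ, S = sing h := ⟨_, rfl⟩
  have hS1 : 1 ≤ S := by rw [hSd]; exact one_le_sing h
  rw [← hΔ] at hlen ⊢
  rw [← hSd] at hS2 hgrid ⊢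
  have hΔ2 : (N : ℝ) / L ^ (2 * A + 1) ≤ Δ := by
    refine le_trans ?_ hlen
    exact div_le_div_of_nonneg_left hN0.le (by positivity) (pow_le_pow_right₀ hL1 (by omega))
  have hΔ0 : 0 < Δ := lt_of_lt_of_le (by positivity) hΔ2
  have hV : (N : ℝ) / L ^ (2 * A + 4) ≤ Δ / L ^ 3 := by
    rw [show 2 * A + 4 = (2 * A + 1) + 3 by ring, pow_add, ← div_div]
    exact div_le_div_of_nonneg_right hΔ2 (by positivity)
  have hL3 : Δ / L ^ 3 ≤ Δ / L / 10000 := by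
    rw [div_div]
    apply div_le_div_of_nonneg_left hΔ0.le (by positivity)
    have : L ^ 3 = L * (L * L) := by ring
    rw [this]
    have : (10000 : ℝ) ≤ L * L := by nlinarith
    exact mul_le_mul_of_nonneg_left this hL0.le
  have hΔL : Δ / L ≤ Δ / 10000 := div_le_div_of_nonneg_left hΔ0.le (by norm_num) hL
  have hHΔ : (H : ℝ) ≤ Δ / L / 5000 := by linarith
  have hHΔ' : (H : ℝ) ≤ Δ / 1000 := by
    have : Δ / L / 5000 ≤ Δ / L := div_le_self (by positivity) (by norm_num)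
    linarith
  have hH0 : (1 : ℝ) ≤ H := by exact_mod_cast hH1
  -- the points of the grid
  obtain ⟨i, hi⟩ : ∃ i, i = (y₁ + H - 1) / H := ⟨_, rfl⟩
  obtain ⟨j, hj⟩ : ∃ j, j = (y₂ - 1) / H := ⟨_, rfl⟩
  have hi1 : y₁ ≤ i * H := by
    have h3 := Nat.lt_div_mul_add (a := y₁ + H - 1) (b := H) (by omega)
    rw [← hi] at h3
    omega
  have hi2 : i * H ≤ y₁ + H := by
    have h3 := Nat.div_mul_le_self (y₁ + H - 1) H
    rw [← hi] at h3
    omega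
  have hj1 : j * H ≤ y₂ - 1 := by
    rw [hj]
    exact Nat.div_mul_le_self _ _
  have hj2 : y₂ ≤ j * H + H := by
    have h3 := Nat.lt_div_mul_add (a := y₂ - 1) (b := H) (by omega)
    rw [← hj] at h3
    omega
  have hi2r : ((i * H : ℕ) : ℝ) ≤ y₁ + H := by exact_mod_cast hi2
  have hj2r : (y₂ : ℝ) ≤ ((j * H : ℕ) : ℝ) + H := by exact_mod_cast hj2
  have hij : i ≤ j := by
    by_contra hcon
    have h3 : j * H ≤ i * H := Nat.mul_le_mul_right _ (by omega)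
    have h4 : ((j * H : ℕ) : ℝ) ≤ ((i * H : ℕ) : ℝ) := by exact_mod_cast h3
    linarith
  have h3 := hgrid i j hij (by omega)
  have h4 := wnp_mono h hi1 (show j * H ≤ y₂ by omega)
  have hgap : Δ - 2 * H ≤ ((j * H : ℕ) : ℝ) - ((i * H : ℕ) : ℝ) := by
    rw [hΔ]
    linarith
  have h6 : 59 / 1000 * (S * (Δ - 2 * H)) ≤ 59 / 1000 * (S * (((j * H : ℕ) : ℝ) - ((i * H : ℕ) : ℝ))) := by
    gcongr
  have hSΔ : Δ ≤ S * Δ := by nlinarith
  -- the square root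
  have h7 : 4 * √(N : ℝ) * L ^ 2 ≤ Δ / 1000 := by
    refine le_trans ?_ (div_le_div_of_nonneg_right hΔ2 (by norm_num))
    rw [Real.sqrt_eq_rpow, le_div_iff₀ (by norm_num), le_div_iff₀ (by positivity)]
    calc 4 * (N : ℝ) ^ (1 / 2 : ℝ) * L ^ 2 * 1000 * L ^ (2 * A + 1)
        = (N : ℝ) ^ (1 / 2 : ℝ) * (4000 * (L ^ 2 * L ^ (2 * A + 1))) := by ring
      _ ≤ (N : ℝ) ^ (1 / 2 : ℝ) * (N : ℝ) ^ (1 / 2 : ℝ) := by
          have e4 : 4000 * (L ^ 2 * L ^ (2 * A + 1)) ≤ (N : ℝ) ^ (1 / 2 : ℝ) := by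
            calc 4000 * (L ^ 2 * L ^ (2 * A + 1)) ≤ L * (L ^ 2 * L ^ (2 * A + 1)) := by
                  gcongr
                  linarith
              _ = L ^ (2 * A + 4) := by ring
              _ ≤ L ^ (3 * A + 10) := pow_le_pow_right₀ hL1 (by omega)
              _ ≤ (N : ℝ) ^ (1 / 4 : ℝ) := hLp
              _ ≤ (N : ℝ) ^ (1 / 2 : ℝ) :=
                  Real.rpow_le_rpow_of_exponent_le (by exact_mod_cast hN1) (by norm_num)
          gcongr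
      _ = N := by
          rw [← Real.rpow_add hN0]
          norm_num
  have h8 : S * H ≤ Δ / 1000 := by
    calc S * H ≤ (2 * L) * (Δ / L / 5000) := by gcongr
      _ = Δ / 2500 := by
          field_simp
          ring
      _ ≤ Δ / 1000 := by linarith
  have h9 : 55 / 1000 * (S * Δ) ≤ L ^ 2 * (cntP h y₁ y₂ : ℝ) := by
    have k1 : 59 / 1000 * (S * (Δ - 2 * H)) = 59 / 1000 * (S * Δ) - 118 / 1000 * (S * H) := by ring
    rw [k1] at h6
    have k2 : (N : ℝ) / L ^ (2 * A + 4) ≤ Δ / 1000 := by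
      have : Δ / L / 10000 ≤ Δ / L := div_le_self (by positivity) (by norm_num)
      linarith
    linarith
  have h10 : S * Δ / L ^ 2 * L ^ 2 = S * Δ := div_mul_cancel₀ _ (by positivity)
  have h11 : 0 < L ^ 2 := by positivity
  have h12' : 55 / 1000 * (S * Δ / L ^ 2) * L ^ 2 ≤ (cntP h y₁ y₂ : ℝ) * L ^ 2 := by
    rw [mul_assoc, h10]
    linarith
  exact le_of_mul_le_mul_right h12' h11

/-- the sum of the squares of the error terms at `y` -/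
noncomputable def Eq2P (N z r n y : ℕ) : ℝ :=
  ‖cvd LA (f0 N z r) y N (-(n : ℤ))‖ ^ 2 + ‖cvd LA (f0 N z r) N y n‖ ^ 2 + ‖cvd (GG N) (f0 N z r) N y n‖ ^ 2 +
    ‖cvd (HH N z r) (f0 N z r) y N (-(n : ℤ))‖ ^ 2

lemma Eq2P_nn (N z r n y : ℕ) : 0 ≤ Eq2P N z r n y := by unfold Eq2P; positivity

lemma not_smallP {N z r n y V : ℕ} (h : ¬ SmallEP N z r n y V) (hL : 0 < Real.log N) :
    ((N : ℝ) / Real.log N ^ V) ^ 2 ≤ Eq2P N z r n y := by
  have hX : 0 ≤ (N : ℝ) / Real.log N ^ V := by positivity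
  unfold SmallEP at h
  unfold Eq2P
  have key : ∀ x : ℝ, ¬ x ≤ (N : ℝ) / Real.log N ^ V → ((N : ℝ) / Real.log N ^ V) ^ 2 ≤ x ^ 2 := by
    intro x hx
    rw [not_le] at hx
    exact pow_le_pow_left₀ hX hx.le 2
  by_contra hcon
  rw [not_le] at hcon
  apply h
  refine ⟨?_, ?_, ?_, ?_⟩
  all_goals
    by_contra hc
    have := key _ hc
    have p1 := sq_nonneg ‖cvd LA (f0 N z r) y N (-(n : ℤ))‖
    have p2 := sq_nonneg ‖cvd LA (f0 N z r) N y n‖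
    have p3 := sq_nonneg ‖cvd (GG N) (f0 N z r) N y n‖
    have p4 := sq_nonneg ‖cvd (HH N z r) (f0 N z r) y N (-(n : ℤ))‖
    linarith

lemma sum_pos_le (f : ℤ → ℝ) (hf : ∀ k, 0 ≤ f k) (q N : ℕ) (a : ZMod q) :
    ∑ h ∈ (Icc 1 N).filter (fun h : ℕ => (h : ZMod q) = a), f (h : ℤ) ≤
      ∑ k ∈ (Icc (-(N : ℤ)) N).filter (fun k : ℤ => (k : ZMod q) = a), f k := by
  classical
  have e1 : ∑ h ∈ (Icc 1 N).filter (fun h : ℕ => (h : ZMod q) = a), f (h : ℤ) =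
      ∑ k ∈ ((Icc 1 N).filter (fun h : ℕ => (h : ZMod q) = a)).image (fun h : ℕ => (h : ℤ)), f k := by
    rw [sum_image]
    intro x _ y _ hxy
    simp only at hxy
    exact_mod_cast hxy
  rw [e1]
  refine sum_le_sum_of_subset_of_nonneg (fun k hk => ?_) fun _ _ _ => hf _
  rw [mem_image] at hk
  obtain ⟨h, hh, rfl⟩ := hk
  rw [mem_filter, mem_Icc] at hh ⊢
  refine ⟨⟨by omega, by omega⟩, ?_⟩
  rw [Int.cast_natCast]
  exact hh.2

lemma sum_neg_le (f : ℤ → ℝ) (hf : ∀ k, 0 ≤ f k) (q N : ℕ) (a : ZMod q) :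
    ∑ h ∈ (Icc 1 N).filter (fun h : ℕ => (h : ZMod q) = a), f (-(h : ℤ)) ≤
      ∑ k ∈ (Icc (-(N : ℤ)) N).filter (fun k : ℤ => (k : ZMod q) = -a), f k := by
  classical
  have e1 : ∑ h ∈ (Icc 1 N).filter (fun h : ℕ => (h : ZMod q) = a), f (-(h : ℤ)) =
      ∑ k ∈ ((Icc 1 N).filter (fun h : ℕ => (h : ZMod q) = a)).image (fun h : ℕ => (-(h : ℤ))), f k := by
    rw [sum_image]
    intro x _ y _ hxy
    simp only [neg_inj] at hxy
    exact_mod_cast hxy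
  rw [e1]
  refine sum_le_sum_of_subset_of_nonneg (fun k hk => ?_) fun _ _ _ => hf _
  rw [mem_image] at hk
  obtain ⟨h, hh, rfl⟩ := hk
  rw [mem_filter, mem_Icc] at hh ⊢
  refine ⟨⟨by omega, by omega⟩, ?_⟩
  rw [Int.cast_neg, Int.cast_natCast, hh.2]

lemma gcd_neg_val {q : ℕ} [NeZero q] (a : ZMod q) : Nat.gcd (-a).val q = Nat.gcd a.val q := by
  rw [ZMod.neg_val]
  split_ifs with h
  · rw [h, ZMod.val_zero]
  · have h1 : a.val ≤ q := (ZMod.val_lt a).le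
    rw [Nat.gcd_comm, Nat.gcd_comm a.val q]
    have h2 : (q - a.val) + a.val = q := Nat.sub_add_cancel h1
    apply Nat.dvd_antisymm
    · apply Nat.dvd_gcd (Nat.gcd_dvd_left _ _)
      have h3 := Nat.gcd_dvd_left q (q - a.val)
      have h4 := Nat.gcd_dvd_right q (q - a.val)
      exact (Nat.dvd_add_right h4).1 (by rw [h2]; exact h3)
    · apply Nat.dvd_gcd (Nat.gcd_dvd_left _ _)
      exact Nat.dvd_sub (Nat.gcd_dvd_left _ _) (Nat.gcd_dvd_right _ _)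

/-- the number of exceptions -/
lemma count_bad (A : ℕ) : ∃ N₀ : ℕ, ∀ N : ℕ, N₀ ≤ N → ∀ (z r q a : ℕ) [NeZero q],
    (q : ℝ) ≤ (N : ℝ) ^ (7 / 10 : ℝ) →
    (∀ n : ℕ, 2 ∣ n → n ≠ 0 → ∀ y₁ y₂ : ℕ, y₁ ≤ y₂ → y₂ + n ≤ N → SmallEP N z r n y₁ (2 * A + 6) →
      SmallEP N z r n y₂ (2 * A + 6) →
      59 / 1000 * (sing n * ((y₂ : ℝ) - y₁)) - N / Real.log N ^ (2 * A + 4) ≤ wnp n y₁ y₂ ∧
        sing n ≤ 2 * Real.log N) →
    (∀ F : ℕ → ℂ, (F = LA ∨ F = GG N ∨ F = HH N z r) → ∀ a' : ZMod q, (a' = a ∨ a' = -a) → ∀ y₁ y₂ : ℕ,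
      y₁ ≤ N → y₂ ≤ N →
      ∑ n ∈ (Icc (-(N : ℤ)) N).filter (fun n : ℤ => (n : ZMod q) = a'),
        ‖cvd F (f0 N z r) y₁ y₂ n‖ ^ 2 ≤ (N : ℝ) ^ 3 / (q * Real.log N ^ (A + 3 * (2 * A + 4) + 8))) →
    ((badP A N q a).card : ℝ) ≤ (N : ℝ) / (q * Real.log N ^ A) := by
  classical
  obtain ⟨V, hV⟩ : ∃ V, V = 2 * A + 4 := ⟨_, rfl⟩
  obtain ⟨N₃, h3⟩ := windows_of_gridP A
  obtain ⟨N₄, h4⟩ := Filter.eventually_atTop.1 (ev_log (V + A + 4) (s := 3 / 10) (by norm_num) 100)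
  refine ⟨N₃ + N₄ + 3, fun N hN z r q a _ hqN c2' hms => ?_⟩
  have hN1 : 1 ≤ N := by omega
  have hN0 : (0 : ℝ) < N := by exact_mod_cast hN1
  have hN1r : (1 : ℝ) ≤ N := by exact_mod_cast hN1
  obtain ⟨hL100, hLp⟩ := h4 N (by omega)
  have c3 := h3 N (by omega)
  rw [show 2 * A + 6 = V + 2 by omega, ← hV] at c2'
  rw [← hV] at hms c3
  obtain ⟨L, hLd⟩ : ∃ L, L = Real.log (N : ℝ) := ⟨_, rfl⟩
  rw [← hLd] at c2' c3 hL100 hLp hms ⊢
  have hL0 : 0 < L := by linarith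
  have hL1 : 1 ≤ L := by linarith
  have hq1 : 1 ≤ q := NeZero.pos q
  have hq0 : (0 : ℝ) < q := by exact_mod_cast hq1
  -- the grid
  obtain ⟨Tg, hTg⟩ : ∃ Tg, Tg = ⌈L ^ V⌉₊ := ⟨_, rfl⟩
  have hT1 : L ^ V ≤ Tg := by rw [hTg]; exact Nat.le_ceil _
  have hLV : 1 ≤ L ^ V := one_le_pow₀ hL1
  have hT2 : (Tg : ℝ) ≤ L ^ V + 1 := by
    rw [hTg]
    exact (Nat.ceil_lt_add_one (by positivity)).le
  have hTpos : 0 < Tg := by
    have : (0 : ℝ) < Tg := by linarith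
    exact_mod_cast this
  obtain ⟨H, hH⟩ : ∃ H, H = N / Tg + 1 := ⟨_, rfl⟩
  have hH1 : 1 ≤ H := by rw [hH]; exact Nat.le_add_left 1 _
  have hpow1 : (N : ℝ) ^ (3 / 10 : ℝ) ≤ N := by
    calc (N : ℝ) ^ (3 / 10 : ℝ) ≤ (N : ℝ) ^ (1 : ℝ) := Real.rpow_le_rpow_of_exponent_le hN1r (by norm_num)
      _ = N := Real.rpow_one _
  have hHr : (H : ℝ) ≤ 2 * (N / L ^ V) := by
    rw [hH]
    push_cast
    have e1 : ((N / Tg : ℕ) : ℝ) ≤ N / L ^ V := by
      calc ((N / Tg : ℕ) : ℝ) ≤ (N : ℝ) / Tg := Nat.cast_div_le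
        _ ≤ N / L ^ V := div_le_div_of_nonneg_left hN0.le (by positivity) hT1
    have e2 : 1 ≤ (N : ℝ) / L ^ V := by
      rw [le_div_iff₀ (by positivity), one_mul]
      exact (pow_le_pow_right₀ hL1 (by omega)).trans (hLp.trans hpow1)
    linarith
  have hjT : ∀ j : ℕ, j * H ≤ N → j < Tg + 1 := by
    intro j hj
    by_contra hcon
    have e1 : (Tg + 1) * H ≤ j * H := Nat.mul_le_mul_right _ (by omega)
    have e2 : N < Tg * H := by
      rw [hH]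
      have := Nat.lt_mul_div_succ N hTpos
      exact this
    have e3 : Tg * H ≤ (Tg + 1) * H := Nat.mul_le_mul_right _ (by omega)
    omega
  obtain ⟨Bd, hBd⟩ : ∃ Bd, Bd = badP A N q a := ⟨_, rfl⟩
  rw [← hBd]
  have hmem : ∀ n ∈ Bd, 1 ≤ n ∧ n ≤ N ∧ 2 ∣ n ∧ n % q = a % q ∧ ¬ PairL A N n := by
    intro n hn
    rw [hBd] at hn
    unfold badP at hn
    rw [mem_filter, mem_Icc] at hn
    exact ⟨hn.1.1, hn.1.2, hn.2.1, hn.2.2.1, hn.2.2.2⟩
  obtain ⟨J, hJ⟩ : ∃ J, J = (range (Tg + 1)).filter (fun j => j * H ≤ N) := ⟨_, rfl⟩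
  have hterm : ∀ n ∈ Bd, ((N : ℝ) / L ^ (V + 2)) ^ 2 ≤ ∑ j ∈ J, Eq2P N z r n (j * H) := by
    intro n hn
    obtain ⟨a1, a2, a3, a4, a5⟩ := hmem n hn
    by_contra hcon
    rw [not_le] at hcon
    have hsm : ∀ j : ℕ, j * H ≤ N → SmallEP N z r n (j * H) (V + 2) := by
      intro j hj
      by_contra hns
      have k1 := not_smallP hns (by rw [← hLd]; exact hL0)
      rw [← hLd] at k1
      have k2 : Eq2P N z r n (j * H) ≤ ∑ j ∈ J, Eq2P N z r n (j * H) := by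
        refine single_le_sum (f := fun j => Eq2P N z r n (j * H)) (fun _ _ => Eq2P_nn _ _ _ _ _) ?_
        rw [hJ, mem_filter, mem_range]
        exact ⟨hjT j (by omega), by omega⟩
      linarith
    have hS2 := (c2' n a3 (by omega) 0 0 le_rfl (by omega) (by
      have := hsm 0 (by omega)
      rwa [zero_mul] at this) (by
      have := hsm 0 (by omega)
      rwa [zero_mul] at this)).2
    apply a5
    refine c3 H hH1 hHr n hS2 ?_
    intro i j hij hj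
    have hle : i * H ≤ j * H := Nat.mul_le_mul_right _ hij
    exact (c2' n a3 (by omega) (i * H) (j * H) hle hj (hsm i (by omega)) (hsm j (by omega))).1
  have hcls : ∀ n ∈ Bd, n ∈ (Icc 1 N).filter (fun n : ℕ => (n : ZMod q) = (a : ZMod q)) := by
    intro n hn
    obtain ⟨a1, a2, a3, a4, a5⟩ := hmem n hn
    rw [mem_filter, mem_Icc]
    exact ⟨⟨a1, a2⟩, (ZMod.natCast_eq_natCast_iff' n a q).2 a4⟩
  obtain ⟨R, hR⟩ : ∃ R : ℝ, R = (N : ℝ) ^ 3 / (q * L ^ (A + 3 * V + 8)) := ⟨_, rfl⟩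
  have hR0 : 0 < R := by rw [hR]; positivity
  have hEsum : ∀ j ∈ J, ∑ n ∈ (Icc 1 N).filter (fun n : ℕ => (n : ZMod q) = (a : ZMod q)),
      Eq2P N z r n (j * H) ≤ 4 * R := by
    intro j hj
    rw [hJ, mem_filter] at hj
    unfold Eq2P
    rw [sum_add_distrib, sum_add_distrib, sum_add_distrib]
    have k1 := (sum_neg_le (fun k => ‖cvd LA (f0 N z r) (j * H) N k‖ ^ 2) (fun _ => sq_nonneg _) q N a).trans
      (hms LA (Or.inl rfl) (-(a : ZMod q)) (Or.inr rfl) (j * H) N hj.2 le_rfl)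
    have k2 := (sum_pos_le (fun k => ‖cvd LA (f0 N z r) N (j * H) k‖ ^ 2) (fun _ => sq_nonneg _) q N a).trans
      (hms LA (Or.inl rfl) (a : ZMod q) (Or.inl rfl) N (j * H) le_rfl hj.2)
    have k3 := (sum_pos_le (fun k => ‖cvd (GG N) (f0 N z r) N (j * H) k‖ ^ 2) (fun _ => sq_nonneg _) q N a).trans
      (hms (GG N) (Or.inr (Or.inl rfl)) (a : ZMod q) (Or.inl rfl) N (j * H) le_rfl hj.2)
    have k4 := (sum_neg_le (fun k => ‖cvd (HH N z r) (f0 N z r) (j * H) N k‖ ^ 2) (fun _ => sq_nonneg _) q N a).trans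
      (hms (HH N z r) (Or.inr (Or.inr rfl)) (-(a : ZMod q)) (Or.inr rfl) (j * H) N hj.2 le_rfl)
    rw [← hR] at k1 k2 k3 k4
    linarith
  have hJc : (J.card : ℝ) ≤ 3 * L ^ V := by
    have e1 : J.card ≤ Tg + 1 := by
      rw [hJ]
      exact (card_filter_le _ _).trans (card_range _).le
    have e2 : (J.card : ℝ) ≤ Tg + 1 := by exact_mod_cast e1
    linarith
  have hsum2 : (Bd.card : ℝ) * (N / L ^ (V + 2)) ^ 2 ≤ 12 * L ^ V * R := by
    calc (Bd.card : ℝ) * (N / L ^ (V + 2)) ^ 2 = ∑ _n ∈ Bd, ((N : ℝ) / L ^ (V + 2)) ^ 2 := by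
          rw [sum_const, nsmul_eq_mul]
      _ ≤ ∑ n ∈ Bd, ∑ j ∈ J, Eq2P N z r n (j * H) := sum_le_sum hterm
      _ ≤ ∑ n ∈ (Icc 1 N).filter (fun n : ℕ => (n : ZMod q) = (a : ZMod q)),
          ∑ j ∈ J, Eq2P N z r n (j * H) :=
          sum_le_sum_of_subset_of_nonneg hcls fun n _ _ => sum_nonneg fun j _ => Eq2P_nn _ _ _ _ _
      _ = ∑ j ∈ J, ∑ n ∈ (Icc 1 N).filter (fun n : ℕ => (n : ZMod q) = (a : ZMod q)),
          Eq2P N z r n (j * H) := sum_comm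
      _ ≤ ∑ j ∈ J, 4 * R := sum_le_sum hEsum
      _ = (J.card : ℝ) * (4 * R) := by rw [sum_const, nsmul_eq_mul]
      _ ≤ (3 * L ^ V) * (4 * R) := by gcongr
      _ = _ := by ring
  have hB2c : (Bd.card : ℝ) ≤ N / (q * L ^ (A + 2)) := by
    have h4 : 12 * L ^ V * R ≤ (N / (q * L ^ (A + 2))) * (N / L ^ (V + 2)) ^ 2 := by
      have e1 : (N / (q * L ^ (A + 2))) * (N / L ^ (V + 2)) ^ 2 =
          (N : ℝ) ^ 3 / (q * L ^ (A + 3 * V + 8)) * (L ^ V * L ^ 2) := by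
        have e2 : L ^ (A + 3 * V + 8) = L ^ A * (L ^ V) ^ 3 * L ^ 8 := by
          rw [← pow_mul, ← pow_add, ← pow_add]
          congr 1
          ring
        rw [e2, pow_add, pow_add]
        have e0 : L ^ V ≠ 0 := by positivity
        have e3 : L ^ A ≠ 0 := by positivity
        generalize L ^ V = X at e0 ⊢
        generalize L ^ A = Y at e3 ⊢
        field_simp
      rw [e1, ← hR]
      have e4 : (12 : ℝ) ≤ L ^ 2 := by nlinarith
      calc 12 * L ^ V * R = R * (L ^ V * 12) := by ring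
        _ ≤ R * (L ^ V * L ^ 2) := by gcongr
    exact le_of_mul_le_mul_right (hsum2.trans h4) (by positivity)
  refine hB2c.trans ?_
  apply div_le_div_of_nonneg_left hN0.le (by positivity)
  have : L ^ A ≤ L ^ (A + 2) := pow_le_pow_right₀ hL1 (by omega)
  gcongr

end Pool.Agent.R460.GP
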