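import Pool.Agent.R460.GS.Win2
import Pool.Agent.W93.PP2

set_option autoImplicit false

/-! Correlations of the von Mangoldt function and the sieve model with a positive shift, in windows. -/

namespace Pool.Agent.R460.GP

open Finset
open Pool.Agent.H373R2.T7
open Pool.Agent.H560R3.GB (sing)
open Pool.Agent.W93.GB
open Pool.Agent.W93.PP (MT MT_sing MT_one MT_le Cnt PS mem_PS ap_main)
open Pool.Agent.W93.PG (lamz_nn)

/-- from long windows to all windows -/
lemma win_gen (V E1 : ℕ) (N0 : ℕ) : ∃ X0 : ℕ, ∀ X : ℕ, X0 ≤ X → ∀ z : ℕ,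
    (z : ℝ) ≤ Real.log X ^ (E1 + 1) → ∀ (f : ℕ → ℝ) (M S : ℝ),
    (∀ y : ℕ, N0 ≤ y → y ≤ X → Real.log X ≤ 2 * Real.log y → (z : ℝ) ≤ Real.log y ^ (E1 + 2) →
      |f y - M * y| ≤ y / Real.log y ^ (V + 4)) →
    |M - S| ≤ 1 / Real.log X ^ (V + 2) → 0 ≤ S → S ≤ 2 * Real.log X →
    (∀ y : ℕ, y ≤ X → |f y| ≤ y * (Real.log X * Real.log X)) →
    ∀ y : ℕ, y ≤ X → |f y - S * y| ≤ 2 * (X / Real.log X ^ (V + 2)) := by
  obtain ⟨n2, h2⟩ := ev_L' (2 ^ (E1 + 5) + 2 ^ (V + 4) + 100)
  obtain ⟨n4, h4⟩ := ev_log' (V + 8) 1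
  refine ⟨N0 ^ 2 + n2 + n4 + 4, fun X hX z hz2 f M S hlong m1' m2 m3 htriv y hyX' => ?_⟩
  have hL := h2 X (by omega)
  have a4 := h4 X (by omega)
  have hX4 : 4 ≤ X := by omega
  obtain ⟨L, hLd⟩ : ∃ L, L = Real.log (X : ℝ) := ⟨_, rfl⟩
  rw [← hLd] at hL a4 hz2 m1' m3 hlong htriv ⊢
  rw [one_mul] at a4
  have hp1 : (0 : ℝ) < 2 ^ (E1 + 5) := by positivity
  have hp2 : (0 : ℝ) < 2 ^ (V + 4) := by positivity
  have hL100 : 100 ≤ L := by linarith
  have hL1 : 1 ≤ L := by linarith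
  have hL0 : 0 < L := by linarith
  have hXr : (4 : ℝ) ≤ X := by exact_mod_cast hX4
  have hX0 : (0 : ℝ) < X := by linarith
  have hss : √(X : ℝ) * √(X : ℝ) = X := Real.mul_self_sqrt hX0.le
  have hs0 : 0 < √(X : ℝ) := Real.sqrt_pos.2 hX0
  obtain ⟨ε, hε⟩ : ∃ ε : ℝ, ε = X / L ^ (V + 2) := ⟨_, rfl⟩
  have hε0 : 0 < ε := by rw [hε]; positivity
  rw [← hε]
  have hyX : (y : ℝ) ≤ X := by exact_mod_cast hyX'
  have hy00 : (0 : ℝ) ≤ y := Nat.cast_nonneg _
  rcases le_or_gt (√(X : ℝ)) y with hysq | hysq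
  · have hy0 : (0 : ℝ) < y := lt_of_lt_of_le hs0 hysq
    have hlogy : L / 2 ≤ Real.log y := by
      have h6 : Real.log (√(X : ℝ)) = L / 2 := by rw [Real.log_sqrt hX0.le, ← hLd]
      rw [← h6]
      exact Real.log_le_log hs0 hysq
    have hyN : N0 ≤ y := by
      have h6 : ((N0 : ℝ)) ≤ √(X : ℝ) := by
        apply Real.le_sqrt_of_sq_le
        exact_mod_cast (by omega : N0 ^ 2 ≤ X)
      exact_mod_cast h6.trans hysq
    have hLy : L ^ (E1 + 1) ≤ Real.log y ^ (E1 + 2) := by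
      have h6 : (L / 2) ^ (E1 + 2) ≤ Real.log y ^ (E1 + 2) := pow_le_pow_left₀ (by linarith) hlogy _
      refine le_trans ?_ h6
      rw [div_pow, le_div_iff₀ (by positivity), show E1 + 2 = (E1 + 1) + 1 by ring, pow_succ L (E1 + 1)]
      apply mul_le_mul_of_nonneg_left _ (by positivity)
      have : (2 : ℝ) ^ (E1 + 1 + 1) ≤ 2 ^ (E1 + 5) := pow_le_pow_right₀ (by norm_num) (by omega)
      linarith
    have g2 := hlong y hyN hyX' (by linarith) (hz2.trans hLy)
    have hly0 : 0 < Real.log y := by linarith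
    have g3 : (y : ℝ) / Real.log y ^ (V + 4) ≤ ε := by
      rw [hε, div_le_div_iff₀ (by positivity) (by positivity)]
      calc (y : ℝ) * L ^ (V + 2) ≤ X * L ^ (V + 2) := mul_le_mul_of_nonneg_right hyX (by positivity)
        _ ≤ X * (L / 2) ^ (V + 4) := by
            apply mul_le_mul_of_nonneg_left _ hX0.le
            rw [div_pow, le_div_iff₀ (by positivity), show V + 4 = (V + 2) + 2 by ring, pow_add L (V + 2) 2]
            apply mul_le_mul_of_nonneg_left _ (by positivity)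
            rw [show V + 2 + 2 = V + 4 by ring]
            nlinarith
        _ ≤ X * Real.log y ^ (V + 4) := by
            apply mul_le_mul_of_nonneg_left _ hX0.le
            exact pow_le_pow_left₀ (by linarith) hlogy _
    have g4 : |M - S| * y ≤ ε := by
      calc |M - S| * y ≤ 1 / L ^ (V + 2) * X := mul_le_mul m1' hyX hy0.le (by positivity)
        _ = ε := by rw [hε]; ring
    have e2 : f y - S * y = (f y - M * y) + (M - S) * y := by ring
    rw [e2]
    refine (abs_add_le _ _).trans ?_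
    have f2 : |(M - S) * y| ≤ ε := by rw [abs_mul, abs_of_nonneg hy0.le]; exact g4
    linarith [g2.trans g3]
  · -- a short window
    have g1 := htriv y hyX'
    have g2 : |S * y| ≤ y * (L * L) := by
      rw [abs_of_nonneg (mul_nonneg m2 hy00)]
      have : 2 * L ≤ L * L := by nlinarith
      nlinarith
    have g3 : (y : ℝ) * (L * L) ≤ ε := by
      rw [hε, le_div_iff₀ (by positivity)]
      calc (y : ℝ) * (L * L) * L ^ (V + 2) = y * L ^ (V + 4) := by ring
        _ ≤ √X * L ^ (V + 8) := by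
            apply mul_le_mul hysq.le (pow_le_pow_right₀ hL1 (by omega)) (by positivity) hs0.le
        _ ≤ √X * √X := mul_le_mul_of_nonneg_left a4 hs0.le
        _ = X := hss
    have g4 := abs_sub (f y) (S * y)
    linarith

/-- the singular series -/
lemma sing_model (V E1 : ℕ) (hE1 : V + 6 ≤ E1) : ∃ X0 : ℕ, ∀ X : ℕ, X0 ≤ X → ∀ m : ℕ, m ≤ X → 2 ∣ m → m ≠ 0 →
    ∀ z : ℕ, Real.log X ^ E1 ≤ z → (z : ℝ) ≤ Real.log X ^ (E1 + 1) →
      |MT z 1 m - sing m| ≤ 1 / Real.log X ^ (V + 2) ∧ 0 ≤ sing m ∧ sing m ≤ 2 * Real.log X ∧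
      MT z 1 m = singZ (sh m) z ∧ (Vz z)⁻¹ ≤ Real.log X ∧ 1 ≤ z := by
  obtain ⟨n2, h2⟩ := ev_L' 100
  obtain ⟨n3, h3⟩ := Vz_inv_small (E1 + 1)
  refine ⟨n2 + n3 + 4, fun X hX m hmX h2m hm0 z hz1 hz2 => ?_⟩
  have hL := h2 X (by omega)
  have hV := h3 X (by omega) z
  have hX4 : 4 ≤ X := by omega
  obtain ⟨L, hLd⟩ : ∃ L, L = Real.log (X : ℝ) := ⟨_, rfl⟩
  rw [← hLd] at hL hV hz1 hz2 ⊢
  have hL1 : 1 ≤ L := by linarith
  have hL0 : 0 < L := by linarith
  have hz0 : (1 : ℝ) ≤ z := (one_le_pow₀ hL1).trans hz1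
  have hzn : 1 ≤ z := by exact_mod_cast hz0
  have hV' := hV hzn hz2
  have hcnt : Cnt 1 m = 1 := by
    unfold Cnt
    rw [range_one, filter_singleton, if_pos (by simp), card_singleton]
  have hlogh : (Nat.log 2 m : ℝ) ≤ 2 * L := by
    have h5 : Nat.log 2 m ≤ Nat.log 2 X := Nat.log_mono_right hmX
    have h6 : (Nat.log 2 m : ℝ) ≤ Nat.log 2 X := by exact_mod_cast h5
    have h7 := natlog_le X (by omega)
    rw [← hLd] at h7
    exact h6.trans h7
  have hzL : 8 * L ^ (V + 4) ≤ z := by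
    refine le_trans ?_ hz1
    calc 8 * L ^ (V + 4) ≤ L * L ^ (V + 4) := mul_le_mul_of_nonneg_right (by linarith) (by positivity)
      _ = L ^ (V + 5) := by ring
      _ ≤ L ^ E1 := pow_le_pow_right₀ hL1 (by omega)
  have hz8L : 8 * L ≤ z := by
    refine le_trans ?_ hzL
    have : L ≤ L ^ (V + 4) := le_self_pow₀ hL1 (by omega)
    linarith
  have hz2n : 2 ≤ z := by
    have : (2 : ℝ) ≤ z := by linarith
    exact_mod_cast this
  obtain ⟨m1, m2, m3⟩ := MT_sing z 1 m L hL1 le_rfl hzn h2m hm0 (by rw [hcnt]; exact Nat.one_pos) hV' hlogh hz8L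
  rw [hcnt, Nat.cast_one, div_one] at m1 m2 m3
  refine ⟨m1.trans ?_, m2, m3, MT_one z m h2m hm0 hz2n, hV', hzn⟩
  rw [div_le_div_iff₀ (by linarith) (by positivity)]
  calc 8 * L ^ 2 * L ^ (V + 2) = 8 * L ^ (V + 4) := by ring
    _ ≤ 1 * z := by linarith

/-- the classes -/
def QP (m p n : ℕ) : Prop := p ∣ n ∨ p ∣ n + m

lemma QP_per (m p n : ℕ) : QP m p n ↔ QP m p (n % p) := by
  unfold QP
  rw [Nat.dvd_mod_iff (dvd_refl p)]
  have h1 : n = n % p + p * (n / p) := (Nat.mod_add_div n p).symm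
  have h2 : n + m = n % p + m + p * (n / p) := by omega
  rw [h2, Nat.dvd_add_left (Dvd.intro _ rfl)]

open Classical in
lemma nu_QP {m p : ℕ} (hp : p.Prime) : nuB (QP m) p = if p ∣ m then 1 else 2 := by
  unfold nuB
  have hp0 := hp.pos
  have h1 : (range p).filter (fun r => QP m p r) = {0, (p - m % p) % p} := by
    ext r
    rw [mem_filter, mem_range, mem_insert, mem_singleton]
    constructor
    · rintro ⟨h1, h2 | h2⟩
      · left
        exact Nat.eq_zero_of_dvd_of_lt h2 h1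
      · right
        have h3 : (r + m % p) % p = 0 := by
          rw [Nat.add_mod_mod]
          exact Nat.mod_eq_zero_of_dvd h2
        have h4 : m % p < p := Nat.mod_lt _ hp0
        have h5 : p ∣ r + m % p := Nat.dvd_of_mod_eq_zero h3
        rcases Nat.eq_zero_or_pos (m % p) with h6 | h6
        · rw [h6, add_zero] at h5
          have := Nat.eq_zero_of_dvd_of_lt h5 h1
          rw [h6, Nat.sub_zero, Nat.mod_self, this]
        · have h7 : r + m % p = p := by
            obtain ⟨k, hk⟩ := h5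
            have h8 : k = 1 := by
              have a1 : p * k < p * 2 := by omega
              have a2 : 0 < p * k := by omega
              have a3 : k < 2 := lt_of_mul_lt_mul_left a1 (Nat.zero_le p)
              have a4 : 0 < k := Nat.pos_of_ne_zero (by rintro rfl; simp at a2)
              omega
            rw [hk, h8, mul_one]
          rw [Nat.mod_eq_of_lt (by omega)]
          omega
    · rintro (h | h)
      · subst h
        refine ⟨hp0, Or.inl (dvd_zero _)⟩
      · subst h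
        refine ⟨Nat.mod_lt _ hp0, Or.inr ?_⟩
        have h4 : m % p < p := Nat.mod_lt _ hp0
        rcases Nat.eq_zero_or_pos (m % p) with h6 | h6
        · rw [h6, Nat.sub_zero, Nat.mod_self, zero_add]
          exact Nat.dvd_of_mod_eq_zero h6
        · rw [Nat.mod_eq_of_lt (by omega)]
          have h7 : p - m % p + m = p + p * (m / p) := by
            have := Nat.mod_add_div m p
            omega
          rw [h7]
          exact Dvd.intro (1 + m / p) (by ring)
  have h2 : ((range p).filter (fun r => QP m p r)).card = if p ∣ m then 1 else 2 := by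
    rw [h1]
    split_ifs with h
    · rw [Nat.mod_eq_zero_of_dvd h, Nat.sub_zero, Nat.mod_self]
      simp
    · have h5 : m % p ≠ 0 := fun h0 => h (Nat.dvd_of_mod_eq_zero h0)
      have h6 : m % p < p := Nat.mod_lt _ hp0
      have : (p - m % p) % p ≠ 0 := by
        rw [Nat.mod_eq_of_lt (by omega)]
        omega
      rw [card_pair (Ne.symm this)]
  convert h2

lemma QP_perB (m : ℕ) : PerB (QP m) 2 := by
  refine ⟨fun p n => QP_per m p n, fun p hp => ?_⟩
  rw [nu_QP hp]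
  split_ifs <;> norm_num

lemma QP_prod (m z : ℕ) : ∏ p ∈ pz z, (1 - (nuB (QP m) p : ℝ) / p) =
    Vz z * ∏ p ∈ PS z 1 m, (1 - 1 / ((p : ℝ) - 1)) := by
  rw [← Pool.Agent.R460.GS.QM_prod m z]
  refine prod_congr rfl fun p hp => ?_
  have hpp := (mem_pz.1 hp).2
  rw [nu_QP hpp, Pool.Agent.R460.GS.nu_QM hpp]

open Classical in
lemma lam2_sumP (z m y : ℕ) :
    ∑ n ∈ Icc 1 y, lamz z n * lamz z (n + m) =
    (Vz z)⁻¹ ^ 2 * (((Icc 1 y).filter (fun n : ℕ => ∀ p ∈ pz z, ¬ QP m p n)).card : ℝ) := by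
  rw [card_eq_sum_ones, Nat.cast_sum, sum_filter, mul_sum]
  refine sum_congr rfl fun n hn => ?_
  rw [mem_Icc] at hn
  unfold lamz QP
  by_cases h2 : ∀ p ∈ pz z, ¬ p ∣ n
  · by_cases h3 : ∀ p ∈ pz z, ¬ p ∣ n + m
    · rw [if_pos h2, if_pos h3, if_pos (fun p hp => not_or.2 ⟨h2 p hp, h3 p hp⟩)]
      push_cast
      ring
    · have h4 : ¬ ∀ p ∈ pz z, ¬ (p ∣ n ∨ p ∣ n + m) := fun h => h3 fun p hp hd => h p hp (Or.inr hd)
      rw [if_neg h3, if_neg h4, mul_zero]
      simp
  · have h4 : ¬ ∀ p ∈ pz z, ¬ (p ∣ n ∨ p ∣ n + m) := fun h => h2 fun p hp hd => h p hp (Or.inl hd)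
    rw [if_neg h2, if_neg h4, zero_mul]
    simp

/-- the correlations in windows -/
lemma winP_main (V E1 : ℕ) (hE1 : V + 6 ≤ E1) : ∃ X0 : ℕ, ∀ X : ℕ, X0 ≤ X → ∀ m : ℕ, m ≤ X → 2 ∣ m → m ≠ 0 →
    ∀ z : ℕ, Real.log X ^ E1 ≤ z → (z : ℝ) ≤ Real.log X ^ (E1 + 1) →
      (∀ y : ℕ, y + m ≤ X →
      |∑ n ∈ Icc 1 y, ArithmeticFunction.vonMangoldt n * lamz z (n + m) - sing m * y| ≤
        4 * (X / Real.log X ^ (V + 2)) ∧
      |∑ n ∈ Icc 1 y, lamz z n * ArithmeticFunction.vonMangoldt (n + m) - sing m * y| ≤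
        4 * (X / Real.log X ^ (V + 2)) ∧
      |∑ n ∈ Icc 1 y, lamz z n * lamz z (n + m) - sing m * y| ≤ 4 * (X / Real.log X ^ (V + 2))) ∧
      0 ≤ sing m ∧ sing m ≤ 2 * Real.log X := by
  classical
  obtain ⟨N1, h1⟩ := ap_main (E1 + 2) (V + 4)
  obtain ⟨N2, h2⟩ := tuple_main 1 (E1 + 2) (V + 4) le_rfl
  obtain ⟨N3, h3⟩ := sys_count 2 (E1 + 2) (V + 7) (by norm_num)
  obtain ⟨X1, g1⟩ := win_gen V E1 (N1 + 3)
  obtain ⟨X2, g2⟩ := win_gen V E1 (N2 + 3)
  obtain ⟨X3, g3⟩ := win_gen V E1 (N3 + 3)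
  obtain ⟨X4, g4⟩ := sing_model V E1 hE1
  obtain ⟨X5, g5⟩ := ev_L' 1000
  refine ⟨X1 + X2 + X3 + X4 + X5 + 4, fun X hX m hmX h2m hm0 z hz1 hz2 => ?_⟩
  obtain ⟨s1, s2, s3, s4, s5, s6⟩ := g4 X (by omega) m hmX h2m hm0 z hz1 hz2
  have hL := g5 X (by omega)
  have hX4 : 4 ≤ X := by omega
  have hL0 : 0 < Real.log X := by linarith
  have hε0 : 0 < (X : ℝ) / Real.log X ^ (V + 2) := by
    have : (0 : ℝ) < X := by exact_mod_cast (by omega : 0 < X)
    positivity
  have hVi : 0 < (Vz z)⁻¹ := inv_pos.2 (Vz_pos z)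
  have hla : ∀ n : ℕ, n ≤ X → |ArithmeticFunction.vonMangoldt n| ≤ Real.log X := by
    intro n hn
    rw [abs_of_nonneg ArithmeticFunction.vonMangoldt_nonneg]
    exact vM_le n X (by omega) (by omega)
  have hlz : ∀ n : ℕ, |lamz z n| ≤ Real.log X := by
    intro n
    rw [abs_of_nonneg (lamz_nn _ _)]
    exact (Pool.Agent.W93.PG.lamz_le _ _).trans s5
  have hVl : ∀ (P : Prop) [Decidable P], |(if P then (Vz z)⁻¹ else 0)| ≤ Real.log X := by
    intro P _
    split_ifs
    · rw [abs_of_pos hVi]; exact s5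
    · rw [abs_zero]; exact hL0.le
  have hbd : ∀ (y : ℕ) (u : ℕ → ℝ), (∀ n ∈ Icc 1 y, |u n| ≤ Real.log X * Real.log X) →
      |∑ n ∈ Icc 1 y, u n| ≤ y * (Real.log X * Real.log X) := by
    intro y u hu
    refine (abs_sum_le_sum_abs _ _).trans ((sum_le_sum hu).trans (le_of_eq ?_))
    rw [sum_const, Nat.card_Icc, nsmul_eq_mul, Nat.add_sub_cancel]
  refine ⟨fun y hy => ⟨?_, ?_, ?_⟩, s2, s3⟩
  · -- primes, shifted model
    obtain ⟨f, hf⟩ : ∃ f : ℕ → ℝ, f = fun y => if y + m ≤ X then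
      ∑ n ∈ Icc 1 y, ArithmeticFunction.vonMangoldt n * lamz z (n + m) else
      ∑ n ∈ Icc 1 y, ArithmeticFunction.vonMangoldt n * lamz z (n + m) := ⟨_, rfl⟩
    have hf' : ∀ y, f y = ∑ n ∈ Icc 1 y, ArithmeticFunction.vonMangoldt n * lamz z (n + m) := by
      intro y; rw [hf]; simp
    have k := g1 X (by omega) z hz2 f (MT z 1 m) (sing m) ?_ s1 s2 s3 ?_ y (by omega)
    · rw [hf'] at k
      linarith
    · intro y hy0 hyX hlog hzy
      have k1 := h1 y (by omega) z s6 hzy 1 0 m le_rfl (by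
        rw [Nat.cast_one]
        exact one_le_pow₀ (by linarith)) (by simp) (by simp)
      rw [hf']
      refine le_trans (le_of_eq ?_) k1
      congr 2
      refine sum_congr rfl fun n hn => ?_
      rw [mem_Icc] at hn
      rw [if_pos (Nat.modEq_one)]
      unfold lamzI
      rw [if_pos (by omega)]
      congr 1
    · intro y hyX
      rw [hf']
      apply hbd
      intro n hn
      rw [mem_Icc] at hn
      rw [abs_mul]
      exact mul_le_mul (hla n (by omega)) (hlz _) (abs_nonneg _) hL0.le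
  · -- model, shifted primes
    obtain ⟨f, hf⟩ : ∃ f : ℕ → ℝ, f = fun y => ∑ n ∈ Icc 1 y, ArithmeticFunction.vonMangoldt n *
      ∏ i, (if ∀ p ∈ pz z, ¬ (p : ℤ) ∣ (n : ℤ) + sh m i then (Vz z)⁻¹ else 0) := ⟨_, rfl⟩
    have k := g2 X (by omega) z hz2 f (singZ (sh m) z) (sing m) ?_ (by rw [← s4]; exact s1) s2 s3 ?_
    · have k1 := k (y + m) hy
      have k2 := k m hmX
      have e1 : ∑ n ∈ Icc 1 y, lamz z n * ArithmeticFunction.vonMangoldt (n + m) = f (y + m) - f m := by
        have e2 : f (y + m) - f m = ∑ n ∈ Ioc m (y + m), ArithmeticFunction.vonMangoldt n *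
            ∏ i, (if ∀ p ∈ pz z, ¬ (p : ℤ) ∣ (n : ℤ) + sh m i then (Vz z)⁻¹ else 0) := by
          rw [hf]
          simp only
          have e3 : ∀ y : ℕ, Icc 1 y = Ioc 0 y := by
            intro y
            ext b
            simp only [mem_Icc, mem_Ioc]
            omega
          rw [e3, e3, ← sum_Ioc_consecutive _ (Nat.zero_le m) (Nat.le_add_left m y)]
          ring
        rw [e2]
        refine sum_nbij' (fun n => n + m) (fun n => n - m) ?_ ?_ ?_ ?_ ?_
        · intro n hn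
          rw [mem_Icc] at hn
          rw [mem_Ioc]
          omega
        · intro n hn
          rw [mem_Ioc] at hn
          rw [mem_Icc]
          omega
        · intro n _
          exact Nat.add_sub_cancel n m
        · intro n hn
          rw [mem_Ioc] at hn
          exact Nat.sub_add_cancel hn.1.le
        · intro n hn
          rw [Fin.prod_univ_one, mul_comm]
          congr 1
          unfold lamz sh
          have h5 : ∀ p : ℕ, ((p : ℤ) ∣ ((n + m : ℕ) : ℤ) + -(m : ℤ)) ↔ p ∣ n := by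
            intro p
            have : ((n + m : ℕ) : ℤ) + -(m : ℤ) = (n : ℤ) := by push_cast; ring
            rw [this, Int.natCast_dvd_natCast]
          simp only [h5]
      rw [e1]
      have e3 : f (y + m) - f m - sing m * y = (f (y + m) - sing m * ((y + m : ℕ) : ℝ)) - (f m - sing m * m) := by
        push_cast
        ring
      rw [e3]
      have := abs_sub (f (y + m) - sing m * ((y + m : ℕ) : ℝ)) (f m - sing m * m)
      linarith
    · intro y hy0 hyX hlog hzy
      rw [hf]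
      exact h2 y (by omega) z s6 hzy (sh m)
    · intro y hyX
      rw [hf]
      simp only
      apply hbd
      intro n hn
      rw [mem_Icc] at hn
      rw [abs_mul, Fin.prod_univ_one]
      exact mul_le_mul (hla n (by omega)) (hVl _) (abs_nonneg _) hL0.le
  · -- model, shifted model
    obtain ⟨f, hf⟩ : ∃ f : ℕ → ℝ, f = fun y => ∑ n ∈ Icc 1 y, lamz z n * lamz z (n + m) := ⟨_, rfl⟩
    have k := g3 X (by omega) z hz2 f (MT z 1 m) (sing m) ?_ s1 s2 s3 ?_ y (by omega)
    · rw [hf] at k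
      simp only at k
      linarith
    · intro y hy0 hyX hlog hzy
      have k1 := h3 y (by omega) z s6 hzy (QP m) (QP_perB m)
      rw [QP_prod] at k1
      rw [hf]
      simp only
      rw [lam2_sumP]
      obtain ⟨c, hc⟩ : ∃ c : ℝ, c = (((Icc 1 y).filter (fun n : ℕ => ∀ p ∈ pz z, ¬ QP m p n)).card : ℝ) := ⟨_, rfl⟩
      have k1' : |c - y * (Vz z * ∏ p ∈ PS z 1 m, (1 - 1 / ((p : ℝ) - 1)))| ≤ y / Real.log y ^ (V + 7) := by
        rw [hc]
        convert k1
      rw [← hc]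
      have hMe : MT z 1 m = (Vz z)⁻¹ * ∏ p ∈ PS z 1 m, (1 - 1 / ((p : ℝ) - 1)) := by
        unfold MT
        rw [Nat.totient_one, Nat.cast_one, div_one]
      have hVp := Vz_pos z
      have e2 : (Vz z)⁻¹ ^ 2 * c - MT z 1 m * y =
          (Vz z)⁻¹ ^ 2 * (c - y * (Vz z * ∏ p ∈ PS z 1 m, (1 - 1 / ((p : ℝ) - 1)))) := by
        rw [hMe]
        field_simp
      rw [e2, abs_mul, abs_of_nonneg (sq_nonneg _)]
      have hly : 500 ≤ Real.log y := by linarith
      have hly0 : 0 < Real.log y := by linarith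
      calc (Vz z)⁻¹ ^ 2 * |c - y * (Vz z * ∏ p ∈ PS z 1 m, (1 - 1 / ((p : ℝ) - 1)))|
          ≤ (2 * Real.log y) ^ 2 * (y / Real.log y ^ (V + 7)) := by
            have := s5.trans hlog
            gcongr
        _ = y / Real.log y ^ (V + 4) * (4 / Real.log y) := by
            rw [show V + 7 = (V + 4) + 3 by ring, pow_add]
            field_simp
            ring
        _ ≤ y / Real.log y ^ (V + 4) * 1 := by
            have : 4 / Real.log y ≤ 1 := by
              rw [div_le_one hly0]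
              linarith
            gcongr
        _ = _ := mul_one _
    · intro y hyX
      rw [hf]
      simp only
      apply hbd
      intro n hn
      rw [mem_Icc] at hn
      rw [abs_mul]
      exact mul_le_mul (hlz _) (hlz _) (abs_nonneg _) hL0.le

end Pool.Agent.R460.GP
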