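import Pool.Agent.R460.GP.Err
import Pool.Agent.R460.GP.Win
import Pool.Agent.R460.GP.Det
import Pool.Agent.R460.GS.Low

set_option autoImplicit false

/-! The lower bound in a window, in terms of the error terms: prime pairs. -/

namespace Pool.Agent.R460.GP

open Finset
open Pool.Agent.H807R2.Dav (ee)
open Pool.Agent.H373R2.T7 (lamz Vz pz lamI lamzI Vz_pos)
open Pool.Agent.Y883.T3 (lsh)
open Pool.Agent.Y883.GJ
open Pool.Agent.R460.GS
open Pool.Agent.W93.PG (lamz_le lamz_nn)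
open Pool.Agent.H560R3.GB (sing)

/-- the weighted number of prime pairs in a window -/
noncomputable def wnp (h y₁ y₂ : ℕ) : ℝ := ∑ b ∈ Ioc y₁ y₂, la b * la (b + h)

lemma shift_le (F : ℕ → ℝ) (hF : ∀ b, 0 ≤ F b) {N n y₁ y₂ : ℕ} (h2 : y₂ + n ≤ N) :
    ∑ b ∈ Ioc y₁ y₂, F (b + n) ≤ ∑ b ∈ Icc 1 N, F b := by
  have e1 : ∑ b ∈ Ioc y₁ y₂, F (b + n) = ∑ b ∈ (Ioc y₁ y₂).image (fun b => b + n), F b := by
    rw [sum_image]
    intro x _ y _ hxy
    exact Nat.add_right_cancel hxy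
  rw [e1]
  refine sum_le_sum_of_subset_of_nonneg (fun b hb => ?_) fun _ _ _ => hF _
  rw [mem_image] at hb
  obtain ⟨c, hc, rfl⟩ := hb
  rw [mem_Ioc] at hc
  rw [mem_Icc]
  omega

lemma bd_windowP {N n y₁ y₂ : ℕ} (h2 : y₂ + n ≤ N) :
    ∑ b ∈ Ioc y₁ y₂, (bd N b + bd N (b + n)) ≤ 2 * ∑ b ∈ Icc 1 N, bd N b := by
  rw [sum_add_distrib]
  have k1 : ∑ b ∈ Ioc y₁ y₂, bd N b ≤ ∑ b ∈ Icc 1 N, bd N b := by
    refine sum_le_sum_of_subset_of_nonneg (fun b hb => ?_) fun _ _ _ => bd_nn _ _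
    rw [mem_Ioc] at hb
    rw [mem_Icc]
    omega
  have k2 := shift_le (bd N) (fun b => bd_nn N b) (y₁ := y₁) h2
  linarith

/-- the vector sieve -/
lemma wnp_lower {N n y₁ y₂ : ℕ} (h2 : y₂ + n ≤ N) (hL : 0 < Real.log N) :
    ∑ b ∈ Ioc y₁ y₂, (la b * gr N (b + n) + gr N b * la (b + n) - gr N b * gr N (b + n)) -
      2 * Real.log N ^ 2 * ((ZZ N : ℝ) * ((Nat.log 2 N + 1 : ℕ) : ℝ)) ≤ wnp n y₁ y₂ := by
  have h1 : ∑ b ∈ Ioc y₁ y₂, (la b * gr N (b + n) + gr N b * la (b + n) - gr N b * gr N (b + n) -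
      Real.log N ^ 2 * (bd N b + bd N (b + n))) ≤ wnp n y₁ y₂ := by
    unfold wnp
    refine sum_le_sum fun b hb => ?_
    rw [mem_Ioc] at hb
    exact pt_lower (mem_Icc.2 ⟨by omega, by omega⟩) (mem_Icc.2 ⟨by omega, by omega⟩)
  rw [sum_sub_distrib, ← mul_sum] at h1
  have h3 := bd_windowP (y₁ := y₁) h2
  have h4 := bd_sum hL
  have h5 : Real.log N ^ 2 * ∑ b ∈ Ioc y₁ y₂, (bd N b + bd N (b + n)) ≤
      Real.log N ^ 2 * (2 * ((ZZ N : ℝ) * ((Nat.log 2 N + 1 : ℕ) : ℝ))) :=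
    mul_le_mul_of_nonneg_left (by linarith) (sq_nonneg _)
  linarith

lemma cvd_neg {F G : ℕ → ℂ} {N n y : ℕ} (hy : y + n ≤ N) :
    cvd F G y N (-(n : ℤ)) = ∑ b ∈ Icc 1 y, F b * (starRingEnd ℂ) (G (b + n)) := by
  unfold cvd
  refine sum_congr rfl fun b hb => ?_
  rw [mem_Icc] at hb
  rw [sum_eq_single (b + n)]
  · rw [if_pos (by push_cast; ring)]
  · intro c _ hc
    rw [if_neg (by omega)]
  · intro h
    exact absurd (mem_Icc.2 ⟨by omega, by omega⟩) h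

lemma cvd_pos {F G : ℕ → ℂ} {N n y : ℕ} (hy : y + n ≤ N) :
    cvd F G N y n = ∑ b ∈ Icc 1 y, F (b + n) * (starRingEnd ℂ) (G b) := by
  unfold cvd
  rw [sum_comm]
  refine sum_congr rfl fun b hb => ?_
  rw [mem_Icc] at hb
  rw [sum_eq_single (b + n)]
  · rw [if_pos (by push_cast; ring)]
  · intro c _ hc
    rw [if_neg (by omega)]
  · intro h
    exact absurd (mem_Icc.2 ⟨by omega, by omega⟩) h

lemma real_sumC (s : Finset ℕ) (u v : ℕ → ℝ) (f g : ℕ → ℂ) (hf : ∀ b, f b = ((u b : ℝ) : ℂ))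
    (hg : ∀ b, g b = ((v b : ℝ) : ℂ)) : |∑ b ∈ s, u b * v b| = ‖∑ b ∈ s, f b * (starRingEnd ℂ) (g b)‖ := by
  have e : ∑ b ∈ s, f b * (starRingEnd ℂ) (g b) = ((∑ b ∈ s, u b * v b : ℝ) : ℂ) := by
    push_cast
    refine sum_congr rfl fun b _ => ?_
    rw [hf, hg, Complex.conj_ofReal]
  rw [e, Complex.norm_real, Real.norm_eq_abs]

/-- the error terms up to `y` -/
lemma err_windowP {N n y z r : ℕ} (hy : y + n ≤ N) :
    |∑ b ∈ Icc 1 y, (la b * fR N z r (b + n) + fR N z r b * la (b + n) - fR N z r b * gr N (b + n) -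
      hR N z r b * fR N z r (b + n))| ≤
    ‖cvd LA (f0 N z r) y N (-(n : ℤ))‖ + ‖cvd LA (f0 N z r) N y n‖ + ‖cvd (GG N) (f0 N z r) N y n‖ +
      ‖cvd (HH N z r) (f0 N z r) y N (-(n : ℤ))‖ := by
  rw [cvd_neg hy, cvd_pos hy, cvd_pos hy, cvd_neg hy]
  rw [← real_sumC (Icc 1 y) la (fun b => fR N z r (b + n)) LA (fun b => f0 N z r (b + n)) (fun _ => rfl)
    (fun b => f0_eq _ _ _ _)]
  rw [← real_sumC (Icc 1 y) (fun b => la (b + n)) (fR N z r) (fun b => LA (b + n)) (f0 N z r) (fun _ => rfl)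
    (fun b => f0_eq _ _ _ _)]
  rw [← real_sumC (Icc 1 y) (fun b => gr N (b + n)) (fR N z r) (fun b => GG N (b + n)) (f0 N z r) (fun _ => rfl)
    (fun b => f0_eq _ _ _ _)]
  rw [← real_sumC (Icc 1 y) (hR N z r) (fun b => fR N z r (b + n)) (HH N z r) (fun b => f0 N z r (b + n))
    (fun _ => rfl) (fun b => f0_eq _ _ _ _)]
  have e : ∑ b ∈ Icc 1 y, (la b * fR N z r (b + n) + fR N z r b * la (b + n) - fR N z r b * gr N (b + n) -
      hR N z r b * fR N z r (b + n)) =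
      ∑ b ∈ Icc 1 y, la b * fR N z r (b + n) + ∑ b ∈ Icc 1 y, la (b + n) * fR N z r b -
      ∑ b ∈ Icc 1 y, gr N (b + n) * fR N z r b - ∑ b ∈ Icc 1 y, hR N z r b * fR N z r (b + n) := by
    rw [← sum_add_distrib, ← sum_sub_distrib, ← sum_sub_distrib]
    refine sum_congr rfl fun b _ => ?_
    ring
  rw [e]
  refine (abs_sub _ _).trans (add_le_add ?_ le_rfl)
  refine (abs_sub _ _).trans (add_le_add ?_ le_rfl)
  exact abs_add_le _ _

/-- from the truncated model to the exact model -/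
lemma swap_modelP {N n y₁ y₂ z r U : ℕ} {c X₁ X₂ : ℝ} (hW : WB (Wt N) c N) (hP : Par U N z r)
    (h2 : y₂ + n ≤ N) (h1 : ∑ n ∈ Icc 1 N, |lamz z n - lsh z r n| ≤ X₁)
    (hX₂ : ∑ n ∈ Icc 1 N, (lsh z r n - lamz z n) ^ 2 ≤ X₂) :
    |∑ b ∈ Ioc y₁ y₂, (la b * hR N z r (b + n) + hR N z r b * la (b + n) - hR N z r b * hR N z r (b + n)) -
      ∑ b ∈ Ioc y₁ y₂, (la b * (Wt N (b + n) * lamz z (b + n)) + (Wt N b * lamz z b) * la (b + n) -
        (Wt N b * lamz z b) * (Wt N (b + n) * lamz z (b + n)))| ≤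
    2 * ((c + c ^ 2) * Real.log N * X₁) + 2 * (c ^ 2 * X₂) := by
  have hc := hW.nn
  obtain ⟨x, hx⟩ : ∃ x : ℕ → ℝ, x = fun n => lsh z r n - lamz z n := ⟨_, rfl⟩
  have hL0 : 0 ≤ Real.log N := Real.log_natCast_nonneg N
  have hpt : ∀ b ∈ Ioc y₁ y₂, |(la b * hR N z r (b + n) + hR N z r b * la (b + n) - hR N z r b * hR N z r (b + n)) -
      (la b * (Wt N (b + n) * lamz z (b + n)) + (Wt N b * lamz z b) * la (b + n) -
        (Wt N b * lamz z b) * (Wt N (b + n) * lamz z (b + n)))| ≤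
      ((c + c ^ 2) * Real.log N * |x b| + c ^ 2 * x b ^ 2) +
      ((c + c ^ 2) * Real.log N * |x (b + n)| + c ^ 2 * x (b + n) ^ 2) := by
    intro b hb
    rw [mem_Ioc] at hb
    have hbN : b ∈ Icc 1 N := mem_Icc.2 ⟨by omega, by omega⟩
    have hcN : b + n ∈ Icc 1 N := mem_Icc.2 ⟨by omega, by omega⟩
    have a1 := hW.h0 b
    have a2 := hW.h0 (b + n)
    have a3 := hW.h1 b (mem_Icc.1 hbN).2
    have a4 := hW.h1 (b + n) (mem_Icc.1 hcN).2
    have a5 := la_nn b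
    have a6 := la_nn (b + n)
    have a7 : la b ≤ Real.log N := vm_le hbN
    have a8 : la (b + n) ≤ Real.log N := vm_le hcN
    have a9 := lamz_nn z b
    have a10 := lamz_nn z (b + n)
    have a11 : lamz z b ≤ Real.log N := (lamz_le z b).trans hP.hV
    have a12 : lamz z (b + n) ≤ Real.log N := (lamz_le z (b + n)).trans hP.hV
    have e1 : (la b * hR N z r (b + n) + hR N z r b * la (b + n) - hR N z r b * hR N z r (b + n)) -
      (la b * (Wt N (b + n) * lamz z (b + n)) + (Wt N b * lamz z b) * la (b + n) -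
        (Wt N b * lamz z b) * (Wt N (b + n) * lamz z (b + n))) =
      la b * Wt N (b + n) * x (b + n) + la (b + n) * Wt N b * x b -
      Wt N b * Wt N (b + n) * (x b * lamz z (b + n) + lamz z b * x (b + n) + x b * x (b + n)) := by
      rw [hx]
      unfold hR
      ring
    rw [e1]
    have b1 : |la b * Wt N (b + n) * x (b + n)| ≤ c * Real.log N * |x (b + n)| := by
      rw [abs_mul, abs_of_nonneg (mul_nonneg a5 a2)]
      apply mul_le_mul_of_nonneg_right _ (abs_nonneg _)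
      rw [mul_comm c]
      exact mul_le_mul a7 a4 a2 hL0
    have b2 : |la (b + n) * Wt N b * x b| ≤ c * Real.log N * |x b| := by
      rw [abs_mul, abs_of_nonneg (mul_nonneg a6 a1)]
      apply mul_le_mul_of_nonneg_right _ (abs_nonneg _)
      rw [mul_comm c]
      exact mul_le_mul a8 a3 a1 hL0
    have b4 : |x b * lamz z (b + n) + lamz z b * x (b + n) + x b * x (b + n)| ≤
        Real.log N * |x b| + Real.log N * |x (b + n)| + (x b ^ 2 + x (b + n) ^ 2) := by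
      refine (abs_add_le _ _).trans (add_le_add ((abs_add_le _ _).trans (add_le_add ?_ ?_)) ?_)
      · rw [abs_mul, abs_of_nonneg a10, mul_comm]
        exact mul_le_mul_of_nonneg_right a12 (abs_nonneg _)
      · rw [abs_mul, abs_of_nonneg a9]
        exact mul_le_mul_of_nonneg_right a11 (abs_nonneg _)
      · rw [abs_mul]
        have := sq_abs (x b)
        have := sq_abs (x (b + n))
        nlinarith [sq_nonneg (|x b| - |x (b + n)|), abs_nonneg (x b), abs_nonneg (x (b + n))]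
    have b3 : |Wt N b * Wt N (b + n) * (x b * lamz z (b + n) + lamz z b * x (b + n) + x b * x (b + n))| ≤
        c ^ 2 * (Real.log N * |x b| + Real.log N * |x (b + n)| + (x b ^ 2 + x (b + n) ^ 2)) := by
      rw [abs_mul, abs_of_nonneg (mul_nonneg a1 a2)]
      refine mul_le_mul ?_ b4 (abs_nonneg _) (sq_nonneg c)
      rw [sq]
      exact mul_le_mul a3 a4 a2 hc
    have k1 := abs_sub (la b * Wt N (b + n) * x (b + n) + la (b + n) * Wt N b * x b)
      (Wt N b * Wt N (b + n) * (x b * lamz z (b + n) + lamz z b * x (b + n) + x b * x (b + n)))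
    have k2 := abs_add_le (la b * Wt N (b + n) * x (b + n)) (la (b + n) * Wt N b * x b)
    calc _ ≤ c * Real.log N * |x (b + n)| + c * Real.log N * |x b| +
          c ^ 2 * (Real.log N * |x b| + Real.log N * |x (b + n)| + (x b ^ 2 + x (b + n) ^ 2)) := by linarith
      _ = _ := by ring
  rw [← sum_sub_distrib]
  refine (abs_sum_le_sum_abs _ _).trans ((sum_le_sum hpt).trans ?_)
  obtain ⟨F, hF⟩ : ∃ F : ℕ → ℝ, F = fun b => (c + c ^ 2) * Real.log N * |x b| + c ^ 2 * x b ^ 2 := ⟨_, rfl⟩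
  have hF0 : ∀ b, 0 ≤ F b := fun b => by rw [hF]; positivity
  have hFs : ∑ b ∈ Icc 1 N, F b ≤ (c + c ^ 2) * Real.log N * X₁ + c ^ 2 * X₂ := by
    rw [hF, sum_add_distrib, ← mul_sum, ← mul_sum]
    have h3 : ∑ b ∈ Icc 1 N, |x b| ≤ X₁ := by
      refine le_trans (le_of_eq (sum_congr rfl fun b _ => ?_)) h1
      rw [hx, abs_sub_comm]
    have h4 : ∑ b ∈ Icc 1 N, x b ^ 2 ≤ X₂ := by rw [hx]; exact hX₂
    have h5 : 0 ≤ (c + c ^ 2) * Real.log N := by positivity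
    exact add_le_add (mul_le_mul_of_nonneg_left h3 h5) (mul_le_mul_of_nonneg_left h4 (sq_nonneg c))
  have e3 : ∑ b ∈ Ioc y₁ y₂, (((c + c ^ 2) * Real.log N * |x b| + c ^ 2 * x b ^ 2) +
      ((c + c ^ 2) * Real.log N * |x (b + n)| + c ^ 2 * x (b + n) ^ 2)) =
      ∑ b ∈ Ioc y₁ y₂, F b + ∑ b ∈ Ioc y₁ y₂, F (b + n) := by
    rw [← sum_add_distrib, hF]
  rw [e3]
  have k1 : ∑ b ∈ Ioc y₁ y₂, F b ≤ ∑ b ∈ Icc 1 N, F b := by
    refine sum_le_sum_of_subset_of_nonneg (fun b hb => ?_) fun _ _ _ => hF0 _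
    rw [mem_Ioc] at hb
    rw [mem_Icc]
    omega
  have k2 := shift_le F hF0 (y₁ := y₁) h2
  linarith

end Pool.Agent.R460.GP
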