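import Pool.Agent.R460.GP.Fin
import Pool.Agent.R460.GP.Err

set_option autoImplicit false

/-! Prime pairs: the number of exceptions in a residue class. -/

namespace Pool.Agent.R460.GP

open Finset
open Pool.Agent.H373R2.T7 (lamz Vz pz lamI lamzI Vz_pos)
open Pool.Agent.Y883.T3 (lsh)
open Pool.Agent.Y883.GJ
open Pool.Agent.R460.GS
open Pool.Agent.H560R3.GB (sing)
open Pool.Agent.Y614.GJ.Core (ev_log)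

/-- the choice of the parameter `z` -/
lemma choose_z {L : ℝ} (hL : 100 ≤ L) (B E1 : ℕ) (hE : B ≤ E1) :
    L ^ B ≤ (⌈L ^ E1⌉₊ : ℝ) ∧ L ^ E1 ≤ (⌈L ^ E1⌉₊ : ℝ) ∧ (⌈L ^ E1⌉₊ : ℝ) ≤ L ^ (E1 + 1) := by
  have hL1 : 1 ≤ L := by linarith
  have hL0 : 0 < L := by linarith
  have hzlo : L ^ E1 ≤ (⌈L ^ E1⌉₊ : ℝ) := Nat.le_ceil _
  have hL1B : 1 ≤ L ^ E1 := one_le_pow₀ hL1
  refine ⟨(pow_le_pow_right₀ hL1 hE).trans hzlo, hzlo, ?_⟩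
  have := Nat.ceil_lt_add_one (show 0 ≤ L ^ E1 by positivity)
  calc (⌈L ^ E1⌉₊ : ℝ) ≤ L ^ E1 + 1 := this.le
    _ ≤ L ^ E1 + L ^ E1 := by linarith
    _ = 2 * L ^ E1 := by ring
    _ ≤ L * L ^ E1 := mul_le_mul_of_nonneg_right (by linarith) (by positivity)
    _ = L ^ (E1 + 1) := by ring

theorem gp_main (hErr : ErrPStm) (hWtb : WtbStm) (hWtd : WtdStm) (ρ : ℝ) (hρ : 0 < ρ) (A T : ℕ) :
    ∃ N₀ : ℕ, ∀ N : ℕ, N₀ ≤ N → ∀ q : ℕ, 1 ≤ q → (q : ℝ) ≤ (N : ℝ) ^ (7 / 10 - ρ) → ∀ a : ℕ,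
      (Nat.gcd a q : ℝ) ≤ Real.log N ^ T →
        ((badP A N q a).card : ℝ) ≤ (N : ℝ) / (q * Real.log N ^ A) := by
  obtain ⟨B, hB⟩ := hErr (A + 3 * (2 * A + 4) + 8) T (2 * (2 * A + 4) + 26) ρ hρ
  obtain ⟨E1, hE1⟩ : ∃ E1, E1 = max B ((2 * A + 4) + 8) := ⟨_, rfl⟩
  obtain ⟨N₁, h1⟩ := hB (E1 + 1)
  obtain ⟨N₂, h2⟩ := grid_lowerP hWtb hWtd (2 * A + 4) E1 (by rw [hE1]; exact le_max_right _ _)
  obtain ⟨N₃, h3⟩ := count_bad A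
  obtain ⟨N₄, h4⟩ := Filter.eventually_atTop.1 (ev_log 1 (s := 3 / 10) (by norm_num) 100)
  refine ⟨N₁ + N₂ + N₃ + N₄ + 3, fun N hN q hq1 hqN a ha => ?_⟩
  have : NeZero q := ⟨by omega⟩
  have hN1r : (1 : ℝ) ≤ N := by exact_mod_cast (show 1 ≤ N by omega)
  obtain ⟨hL100, -⟩ := h4 N (by omega)
  obtain ⟨z1, z2, z3⟩ := choose_z hL100 B E1 (by rw [hE1]; exact le_max_left _ _)
  obtain ⟨r, hPar, hsum, hms⟩ := h1 N (by omega) ⌈Real.log N ^ E1⌉₊ z1 z3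
  have c2 := h2 N (by omega) ⌈Real.log N ^ E1⌉₊ r z2 z3 hPar hsum
  have hgcd : ((Nat.gcd (ZMod.val (a : ZMod q)) q : ℕ) : ℝ) ≤ Real.log N ^ T := by
    rw [ZMod.val_natCast, ← Nat.gcd_rec, Nat.gcd_comm]
    exact ha
  refine h3 N (by omega) ⌈Real.log N ^ E1⌉₊ r q a
    (hqN.trans (Real.rpow_le_rpow_of_exponent_le hN1r (by linarith))) c2 ?_
  intro F hF a' ha' y₁ y₂ hy1 hy2
  refine hms F hF q hqN a' ?_ y₁ y₂ hy1 hy2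
  rcases ha' with h | h
  · rw [h]
    exact hgcd
  · rw [h, gcd_neg_val]
    exact hgcd

theorem gpr_main (hErr : ErrPRStm) (hWtb : WtbStm) (hWtd : WtdStm) (ρ : ℝ) (hρ : 0 < ρ) (A : ℕ) :
    ∃ c : ℕ, ∀ A₀ : ℕ, ∃ N₀ : ℕ, ∀ N : ℕ, N₀ ≤ N → ∃ D : Finset ℕ, (D.card : ℝ) ≤ Real.log N ^ c ∧
      (∀ d ∈ D, Real.log N ^ A₀ < (d : ℝ)) ∧
      ∀ q : ℕ, 1 ≤ q → (q : ℝ) ≤ (N : ℝ) ^ (7 / 10 - ρ) → (∀ d ∈ D, ¬ d ∣ q) → ∀ a : ℕ,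
        ((badP A N q a).card : ℝ) ≤ (N : ℝ) / (q * Real.log N ^ A) := by
  obtain ⟨c, hB⟩ := hErr (A + 3 * (2 * A + 4) + 8) (2 * (2 * A + 4) + 26) ρ hρ
  refine ⟨c, fun A₀ => ?_⟩
  obtain ⟨B, hB⟩ := hB A₀
  obtain ⟨E1, hE1⟩ : ∃ E1, E1 = max B ((2 * A + 4) + 8) := ⟨_, rfl⟩
  obtain ⟨N₁, h1⟩ := hB (E1 + 1)
  obtain ⟨N₂, h2⟩ := grid_lowerP hWtb hWtd (2 * A + 4) E1 (by rw [hE1]; exact le_max_right _ _)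
  obtain ⟨N₃, h3⟩ := count_bad A
  obtain ⟨N₄, h4⟩ := Filter.eventually_atTop.1 (ev_log 1 (s := 3 / 10) (by norm_num) 100)
  refine ⟨N₁ + N₂ + N₃ + N₄ + 3, fun N hN => ?_⟩
  have hN1r : (1 : ℝ) ≤ N := by exact_mod_cast (show 1 ≤ N by omega)
  obtain ⟨hL100, -⟩ := h4 N (by omega)
  obtain ⟨D, hDc, hDl, c1⟩ := h1 N (by omega)
  refine ⟨D, hDc, hDl, fun q hq1 hqN hqD a => ?_⟩
  have : NeZero q := ⟨by omega⟩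
  obtain ⟨z1, z2, z3⟩ := choose_z hL100 B E1 (by rw [hE1]; exact le_max_left _ _)
  obtain ⟨r, hPar, hsum, hms⟩ := c1 ⌈Real.log N ^ E1⌉₊ z1 z3
  have c2 := h2 N (by omega) ⌈Real.log N ^ E1⌉₊ r z2 z3 hPar hsum
  refine h3 N (by omega) ⌈Real.log N ^ E1⌉₊ r q a
    (hqN.trans (Real.rpow_le_rpow_of_exponent_le hN1r (by linarith))) c2 ?_
  intro F hF a' ha' y₁ y₂ hy1 hy2
  exact hms F hF q hqN hqD a' y₁ y₂ hy1 hy2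

end Pool.Agent.R460.GP
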